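import Mathlib

/-! # Definitions used in the statement (MP_30ddb3_co, Q1) -/

namespace Pool.Agent.K4H30.PM

open MvPolynomial Finset

open scoped TensorProduct

/-! ### The polarization module -/

/-- The polynomial ring `ℂ[X]`, `X = (x_{ij})`, `i ∈ Fin ℓ` (rows), `j ∈ Fin n` (columns). -/
abbrev P (ℓ n : ℕ) := MvPolynomial (Fin ℓ × Fin n) ℂ

variable {ℓ n : ℕ}

/-- The generalized polarization operator `E^{(p)}_{i,k} f = ∑_j x_{ij} ∂_{kj}^p f`. -/
noncomputable def E (p : ℕ) (i k : Fin ℓ) (f : P ℓ n) : P ℓ n :=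
  ∑ j : Fin n, X (i, j) * (pderiv (k, j))^[p] f

/-- The diagonal action of `𝔖_n`: `x_{ij} ↦ x_{i σ(j)}`. -/
noncomputable def sAct (σ : Equiv.Perm (Fin n)) : P ℓ n →ₐ[ℂ] P ℓ n :=
  rename (fun a => (a.1, σ a.2))

/-- The action of `GL_ℓ(ℂ)`: `x_{ij} ↦ ∑_k m_{ik} x_{kj}`. -/
noncomputable def glAct (M : Matrix.GeneralLinearGroup (Fin ℓ) ℂ) : P ℓ n →ₐ[ℂ] P ℓ n :=
  aeval (fun a => ∑ k : Fin ℓ, C ((M : Matrix (Fin ℓ) (Fin ℓ) ℂ) a.1 k) * X (k, a.2))

/-- `W` contains the `𝔖_n`-orbit of `f` and is closed under all partial derivatives and all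
generalized polarization operators `E^{(p)}_{i,k}`, `p ≥ 1`. -/
structure Closed (f : P ℓ n) (W : Submodule ℂ (P ℓ n)) : Prop where
  orbit : ∀ σ : Equiv.Perm (Fin n), sAct σ f ∈ W
  deriv : ∀ a : Fin ℓ × Fin n, ∀ g ∈ W, pderiv a g ∈ W
  polar : ∀ p : ℕ, 1 ≤ p → ∀ i k : Fin ℓ, ∀ g ∈ W, E p i k g ∈ W

/-- The polarization module `M_f`: the smallest such subspace. -/
noncomputable def polMod (f : P ℓ n) : Submodule ℂ (P ℓ n) := sInf {W | Closed f W}

/-- A polynomial in `n` variables, written in the variables of the first row. -/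
noncomputable def row (ℓ : ℕ) [NeZero ℓ] (F : MvPolynomial (Fin n) ℂ) : P ℓ n :=
  rename (fun j => ((0 : Fin ℓ), j)) F

/-- The monomial symmetric polynomial `m_{(2,1^{d-2})}` in `n` variables: the sum of the
monomials `x_j^2 ∏_{b ∈ B} x_b` over all `j` and all `(d-2)`-element sets `B` with `j ∉ B`. -/
noncomputable def m21 (n d : ℕ) : MvPolynomial (Fin n) ℂ :=
  ∑ j : Fin n, ∑ B ∈ powersetCard (d - 2) (univ.erase j), X j ^ 2 * ∏ b ∈ B, X b

/-! ### The irreducible representations `S^{(n-i,i)}` of `𝔖_n` -/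

/-- The Specht module `S^{(n-i,i)}` (for `2i ≤ n`) as James' kernel: the functions on the
`i`-element subsets of `Fin n` (written as functions on all subsets, zero on the subsets of other
sizes) whose sum over the supersets of every `(i-1)`-element subset is zero. -/
def Specht (n i : ℕ) : Submodule ℂ (Finset (Fin n) → ℂ) where
  carrier := {c | (∀ B : Finset (Fin n), B.card ≠ i → c B = 0) ∧
    ∀ A : Finset (Fin n), A.card + 1 = i → ∑ B with A ⊆ B, c B = 0}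
  zero_mem' := ⟨fun _ _ => rfl, fun _ _ => by simp⟩
  add_mem' := fun {a b} ha hb => ⟨fun B hB => by
    rw [Pi.add_apply, ha.1 B hB, hb.1 B hB, add_zero], fun A hA => by
    simp only [Pi.add_apply, sum_add_distrib]
    rw [ha.2 A hA, hb.2 A hA, add_zero]⟩
  smul_mem' := fun r a ha => ⟨fun B hB => by
    rw [Pi.smul_apply, ha.1 B hB, smul_zero], fun A hA => by
    simp only [Pi.smul_apply, ← smul_sum]
    rw [ha.2 A hA, smul_zero]⟩

/-- The action of a permutation on functions on subsets: `(σ c)(B) = c(σ⁻¹ B)`. -/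
noncomputable def spAct (σ : Equiv.Perm (Fin n)) :
    (Finset (Fin n) → ℂ) →ₗ[ℂ] (Finset (Fin n) → ℂ) :=
  LinearMap.funLeft ℂ ℂ (fun B => B.map (σ⁻¹).toEmbedding)

lemma spAct_apply (σ : Equiv.Perm (Fin n)) (c : Finset (Fin n) → ℂ) (B : Finset (Fin n)) :
    spAct σ c B = c (B.map (σ⁻¹).toEmbedding) := rfl

/-- `B ↦ σ⁻¹ B` as a permutation of the subsets. -/
def setPerm (σ : Equiv.Perm (Fin n)) : Equiv.Perm (Finset (Fin n)) where
  toFun B := B.map (σ⁻¹).toEmbedding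
  invFun B := B.map σ.toEmbedding
  left_inv B := by
    beta_reduce
    rw [map_map]
    have h : (σ⁻¹).toEmbedding.trans σ.toEmbedding = Function.Embedding.refl (Fin n) := by
      ext x
      simp
    rw [h, map_refl]
  right_inv B := by
    beta_reduce
    rw [map_map]
    have h : σ.toEmbedding.trans (σ⁻¹).toEmbedding = Function.Embedding.refl (Fin n) := by
      ext x
      simp
    rw [h, map_refl]

lemma setPerm_apply (σ : Equiv.Perm (Fin n)) (B : Finset (Fin n)) :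
    setPerm σ B = B.map (σ⁻¹).toEmbedding := rfl

lemma spAct_Specht {k : ℕ} (σ : Equiv.Perm (Fin n)) {c : Finset (Fin n) → ℂ}
    (hc : c ∈ Specht n k) : spAct σ c ∈ Specht n k := by
  refine ⟨fun B hB => hc.1 _ (by rwa [card_map]), fun A hA => ?_⟩
  have h := hc.2 (A.map (σ⁻¹).toEmbedding) (by rwa [card_map])
  rw [← h, sum_filter, sum_filter]
  refine Fintype.sum_equiv (setPerm σ) _ _ fun B => ?_
  rw [setPerm_apply, spAct_apply]
  refine if_congr ?_ rfl rfl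
  rw [map_subset_map]

/-- The action of `𝔖_n` on the Specht module `S^{(n-i,i)}`. -/
noncomputable def spRep (σ : Equiv.Perm (Fin n)) (i : ℕ) : Specht n i →ₗ[ℂ] Specht n i :=
  (spAct σ).restrict fun _ hc => spAct_Specht σ hc

/-! ### The irreducible representations `W_{(j)} = Sym^j(ℂ^ℓ)` of `GL_ℓ` -/

/-- `W_{(j)} = Sym^j(ℂ^ℓ)`, with character the Schur polynomial `s_j(q_1,…,q_ℓ)`: the homogeneous
polynomials of degree `j` in `y_1,…,y_ℓ`. -/
abbrev Sym (ℓ j : ℕ) : Submodule ℂ (MvPolynomial (Fin ℓ) ℂ) := homogeneousSubmodule (Fin ℓ) ℂ j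

/-- The action of `GL_ℓ(ℂ)` on `ℂ[y_1,…,y_ℓ]`: `y_i ↦ ∑_k m_{ik} y_k`. -/
noncomputable def symAct (M : Matrix.GeneralLinearGroup (Fin ℓ) ℂ) :
    MvPolynomial (Fin ℓ) ℂ →ₐ[ℂ] MvPolynomial (Fin ℓ) ℂ :=
  aeval (fun i => ∑ k : Fin ℓ, C ((M : Matrix (Fin ℓ) (Fin ℓ) ℂ) i k) * X k)

lemma symAct_mem (M : Matrix.GeneralLinearGroup (Fin ℓ) ℂ) (j : ℕ) {p : MvPolynomial (Fin ℓ) ℂ}
    (hp : p ∈ Sym ℓ j) : symAct M p ∈ Sym ℓ j := by
  rw [mem_homogeneousSubmodule] at hp ⊢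
  have := hp.aeval (n := 1) (fun i => ∑ k : Fin ℓ, C ((M : Matrix (Fin ℓ) (Fin ℓ) ℂ) i k) * X k)
    (fun i => IsHomogeneous.sum _ _ _ fun k _ => isHomogeneous_C_mul_X _ _)
  rwa [one_mul] at this

/-- The action of `GL_ℓ(ℂ)` on `Sym^j(ℂ^ℓ)`. -/
noncomputable def symRep (M : Matrix.GeneralLinearGroup (Fin ℓ) ℂ) (j : ℕ) :
    Sym ℓ j →ₗ[ℂ] Sym ℓ j :=
  (symAct M).toLinearMap.restrict fun _ hp => symAct_mem M j hp

/-! ### The multiplicities -/

/-- The coefficient of `s_j(q) s_{n-i,i}(w)` in the right-hand side of the formula of Q1. -/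
def mult (d i j : ℕ) : ℕ :=
  if i = 0 then
    if j = 0 ∨ j = 1 ∨ j = d then 1 else if 2 ≤ j ∧ j ≤ d - 1 then 2 else 0
  else if i ≤ d / 2 - 1 then
    if j = i ∨ j = d - i then 1 else if i + 1 ≤ j ∧ j ≤ d - i - 1 then 2 else 0
  else if i = d / 2 then
    if d / 2 ≤ j ∧ j ≤ d - d / 2 then 1 else 0
  else 0

/-! ### The right-hand side of the formula as a representation of `GL_ℓ(ℂ) × 𝔖_n` -/

/-- The representation `Sym^j(ℂ^ℓ) ⊗ S^{(n-i,i)}` of `GL_ℓ(ℂ) × 𝔖_n` (as a vector space). -/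
noncomputable def Summand (ℓ n j i : ℕ) : ModuleCat.{0} ℂ :=
  ModuleCat.of ℂ (Sym ℓ j ⊗[ℂ] Specht n i)

/-- The action of `(M, σ)` on `Sym^j(ℂ^ℓ) ⊗ S^{(n-i,i)}`. -/
noncomputable def sumAct (M : Matrix.GeneralLinearGroup (Fin ℓ) ℂ) (σ : Equiv.Perm (Fin n))
    (j i : ℕ) : Summand ℓ n j i →ₗ[ℂ] Summand ℓ n j i :=
  TensorProduct.map (symRep M j) (spRep σ i)

/-- The labels of the summands in degree `j`: an `i ≤ ⌊d/2⌋` and one of `mult d i j` labels. -/
abbrev Idx (d j : ℕ) : Type := Σ i : Fin (d / 2 + 1), Fin (mult d i j)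

/-- The right-hand side: the sum over `0 ≤ j ≤ d` and `0 ≤ i ≤ ⌊d/2⌋` of `mult d i j` copies of
`Sym^j(ℂ^ℓ) ⊗ S^{(n-i,i)}` (as a vector space). -/
noncomputable def Rhs (ℓ n d : ℕ) : ModuleCat.{0} ℂ :=
  ModuleCat.of ℂ ((j : Fin (d + 1)) → (x : Idx d j) → Summand ℓ n j x.1)

/-- The action of `(M, σ)` on the right-hand side. -/
noncomputable def rhsAct {d : ℕ} (M : Matrix.GeneralLinearGroup (Fin ℓ) ℂ)
    (σ : Equiv.Perm (Fin n)) (t : Rhs ℓ n d) : Rhs ℓ n d :=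
  fun (j : Fin (d + 1)) (x : Idx d j) => sumAct M σ j x.1 (t j x)

end Pool.Agent.K4H30.PM
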