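import Mathlib
import Pool.Agent.K4H30.PM.Defs

/-! # Functions on subsets: inclusion and disjointness maps -/

namespace Pool.Agent.K4H30.PM

open Finset
open scoped ComplexOrder

/-- Functions on the subsets of `Fin n`. -/
abbrev Fn (n : ℕ) := Finset (Fin n) → ℂ

variable {n : ℕ}

/-- Functions supported on the subsets `B` with `|B| + 1 = k`. -/
def Md (n k : ℕ) : Submodule ℂ (Fn n) where
  carrier := {c | ∀ B : Finset (Fin n), B.card + 1 ≠ k → c B = 0}
  zero_mem' := fun _ _ => rfl
  add_mem' := fun {a b} ha hb B hB => by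
    rw [Pi.add_apply, ha B hB, hb B hB, add_zero]
  smul_mem' := fun r a ha B hB => by
    rw [Pi.smul_apply, ha B hB, smul_zero]

lemma mem_Md {k : ℕ} {c : Fn n} : c ∈ Md n k ↔ ∀ B : Finset (Fin n), B.card + 1 ≠ k → c B = 0 :=
  Iff.rfl

/-! ### A matrix on pairs of subsets -/

/-- The matrix of a relation `r` between the sets `T` with `|T| + 1 = a` (columns) and the sets `B`
with `|B| + 1 = b` (rows). -/
noncomputable def Mx (r : Finset (Fin n) → Finset (Fin n) → Prop) (a b : ℕ) :
    Matrix (Finset (Fin n)) (Finset (Fin n)) ℂ := by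
  classical
  exact fun B T => if (B.card + 1 = b ∧ T.card + 1 = a) ∧ r T B then 1 else 0

/-- The linear map of the matrix. -/
noncomputable def Lm (r : Finset (Fin n) → Finset (Fin n) → Prop) (a b : ℕ) : Fn n →ₗ[ℂ] Fn n :=
  (Mx r a b).mulVecLin

/-- The transposed linear map. -/
noncomputable def Lt (r : Finset (Fin n) → Finset (Fin n) → Prop) (a b : ℕ) : Fn n →ₗ[ℂ] Fn n :=
  (Mx r a b).transpose.mulVecLin

lemma Lm_apply (r : Finset (Fin n) → Finset (Fin n) → Prop) [∀ T B, Decidable (r T B)] (a b : ℕ)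
    (c : Fn n) (B : Finset (Fin n)) :
    Lm r a b c B = if B.card + 1 = b then ∑ T with T.card + 1 = a ∧ r T B, c T else 0 := by
  classical
  unfold Lm Mx
  rw [Matrix.mulVecLin_apply, Matrix.mulVec, dotProduct]
  by_cases h : B.card + 1 = b
  · rw [if_pos h, sum_filter]
    refine sum_congr rfl fun T _ => ?_
    by_cases h2 : T.card + 1 = a <;> by_cases h3 : r T B <;> simp [h, h2, h3]
  · rw [if_neg h]
    refine sum_eq_zero fun T _ => ?_
    simp [h]

lemma Lt_apply (r : Finset (Fin n) → Finset (Fin n) → Prop) [∀ T B, Decidable (r T B)] (a b : ℕ)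
    (c : Fn n) (T : Finset (Fin n)) :
    Lt r a b c T = if T.card + 1 = a then ∑ B with B.card + 1 = b ∧ r T B, c B else 0 := by
  classical
  unfold Lt Mx
  rw [Matrix.mulVecLin_apply, Matrix.mulVec, dotProduct]
  by_cases h : T.card + 1 = a
  · rw [if_pos h, sum_filter]
    refine sum_congr rfl fun B _ => ?_
    by_cases h2 : B.card + 1 = b <;> by_cases h3 : r T B <;>
      simp [h, h2, h3, Matrix.transpose_apply]
  · rw [if_neg h]
    refine sum_eq_zero fun B _ => ?_
    simp [h, Matrix.transpose_apply]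

lemma Lm_mem (r : Finset (Fin n) → Finset (Fin n) → Prop) (a b : ℕ) (c : Fn n) :
    Lm r a b c ∈ Md n b := by
  classical
  intro B hB
  rw [Lm_apply, if_neg hB]

lemma Lt_mem (r : Finset (Fin n) → Finset (Fin n) → Prop) (a b : ℕ) (c : Fn n) :
    Lt r a b c ∈ Md n a := by
  classical
  intro B hB
  rw [Lt_apply, if_neg hB]

lemma LmLt_eq_zero (r : Finset (Fin n) → Finset (Fin n) → Prop) (a b : ℕ) (c : Fn n)
    (h : Lm r a b (Lt r a b c) = 0) : Lt r a b c = 0 := by
  classical
  have hH : (Mx (n := n) r a b).conjTranspose = (Mx r a b).transpose := by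
    ext B T
    simp only [Matrix.conjTranspose_apply, Matrix.transpose_apply, Mx]
    split_ifs <;> simp
  unfold Lm Lt at h
  rw [Matrix.mulVecLin_apply, Matrix.mulVecLin_apply, Matrix.mulVec_mulVec, ← hH] at h
  unfold Lt
  rw [Matrix.mulVecLin_apply, ← hH]
  have := (Matrix.self_mul_conjTranspose_mulVec_eq_zero (Mx (n := n) r a b) c).1 h
  exact this

/-- If the transposed map is injective on the functions on `b`-sets, then `L Lᵀ` is onto. -/
lemma LmLt_surj (r : Finset (Fin n) → Finset (Fin n) → Prop) (a b : ℕ)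
    (hinj : ∀ c ∈ Md n b, Lt r a b c = 0 → c = 0) {c : Fn n} (hc : c ∈ Md n b) :
    ∃ c' ∈ Md n b, Lm r a b (Lt r a b c') = c := by
  let T : Fn n →ₗ[ℂ] Fn n := (Lm r a b).comp (Lt r a b)
  have hT : ∀ x ∈ Md n b, T x ∈ Md n b := fun x _ => Lm_mem _ _ _ _
  let T' : Md n b →ₗ[ℂ] Md n b := T.restrict hT
  have h1 : Function.Injective T' := by
    rw [injective_iff_map_eq_zero]
    rintro ⟨x, hx⟩ h
    have h2 : T x = 0 := congrArg Subtype.val h
    have h3 := hinj x hx (LmLt_eq_zero r a b x h2)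
    exact Subtype.ext h3
  have h2 : Function.Surjective T' := LinearMap.injective_iff_surjective.1 h1
  obtain ⟨⟨x, hx⟩, hx2⟩ := h2 ⟨c, hc⟩
  exact ⟨x, hx, congrArg Subtype.val hx2⟩

/-! ### Disjointness -/

/-- Disjointness sum `D c B = ∑_{T ∩ B = ∅} c T`. -/
noncomputable def Ds (c : Fn n) (B : Finset (Fin n)) : ℂ := ∑ T with Disjoint T B, c T

/-- `G c A B = ∑_{T ⊇ A, T ∩ B = ∅} c T`. -/
noncomputable def Gs (c : Fn n) (A B : Finset (Fin n)) : ℂ := ∑ T with (A ⊆ T ∧ Disjoint T B), c T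

lemma Gs_empty (c : Fn n) (B : Finset (Fin n)) : Gs c ∅ B = Ds c B := by
  unfold Gs Ds
  simp

lemma Gs_split (c : Fn n) (A B : Finset (Fin n)) (z : Fin n) :
    Gs c A B = Gs c (insert z A) B + Gs c A (insert z B) := by
  unfold Gs
  rw [← sum_filter_add_sum_filter_not (univ.filter fun T => A ⊆ T ∧ Disjoint T B)
    (fun T => z ∈ T)]
  rw [filter_filter, filter_filter]
  congr 1
  · refine sum_congr (filter_congr fun T _ => ?_) fun _ _ => rfl
    rw [insert_subset_iff]
    tauto
  · refine sum_congr (filter_congr fun T _ => ?_) fun _ _ => rfl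
    rw [disjoint_insert_right]
    tauto

lemma Gs_self {k : ℕ} {c : Fn n} (hc : c ∈ Md n k) {A : Finset (Fin n)} (hA : A.card + 1 = k) :
    Gs c A ∅ = c A := by
  unfold Gs
  rw [sum_eq_single A]
  · intro T hT hne
    rw [mem_filter] at hT
    refine hc T fun h => hne ?_
    exact (eq_of_subset_of_card_le hT.2.1 (by omega)).symm
  · intro h
    simp at h

/-- Going down: `D c = 0` on `(m+1)`-sets implies `D c = 0` on `m`-sets. -/
lemma Ds_down {a m : ℕ} {c : Fn n} (hc : c ∈ Md n (a + 1)) (h : a + m + 1 ≤ n)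
    (h0 : ∀ B : Finset (Fin n), B.card = m + 1 → Ds c B = 0) (B : Finset (Fin n))
    (hB : B.card = m) : Ds c B = 0 := by
  have h1 : ∑ z ∈ Bᶜ, Ds c (insert z B) = ((n - a - m : ℕ) : ℂ) * Ds c B := by
    unfold Ds
    simp only [sum_filter]
    rw [sum_comm, mul_sum]
    refine sum_congr rfl fun T _ => ?_
    by_cases hT : Disjoint T B
    · by_cases hT2 : T.card = a
      · rw [if_pos hT]
        have : ∀ z ∈ Bᶜ, (if Disjoint T (insert z B) then c T else 0) =
            if z ∉ T then c T else 0 := by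
          intro z _
          refine if_congr ?_ rfl rfl
          rw [disjoint_insert_right]
          simp only [hT, and_true]
        rw [sum_congr rfl this, ← sum_filter, sum_const, nsmul_eq_mul]
        congr 2
        have : Bᶜ.filter (fun z => z ∉ T) = (T ∪ B)ᶜ := by
          ext z
          simp only [mem_filter, mem_compl, mem_union, not_or]
          tauto
        rw [this, card_compl, card_union_of_disjoint hT, Fintype.card_fin]
        omega
      · have h0 : c T = 0 := hc T (by omega)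
        rw [h0]
        simp
    · rw [if_neg hT, mul_zero]
      refine sum_eq_zero fun z _ => ?_
      rw [if_neg]
      intro h
      exact hT (disjoint_of_subset_right (subset_insert z B) h)
  have h2 : ∑ z ∈ Bᶜ, Ds c (insert z B) = 0 := by
    refine sum_eq_zero fun z hz => ?_
    apply h0
    rw [card_insert_of_notMem (mem_compl.1 hz), hB]
  rw [h2] at h1
  have h3 : ((n - a - m : ℕ) : ℂ) ≠ 0 := by
    rw [Nat.cast_ne_zero]
    omega
  exact (mul_eq_zero.1 h1.symm).resolve_left h3

lemma Ds_down' {a b : ℕ} {c : Fn n} (hc : c ∈ Md n (a + 1)) (h : a + b ≤ n)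
    (h0 : ∀ B : Finset (Fin n), B.card = b → Ds c B = 0) (m : ℕ) (hm : m ≤ b) :
    ∀ B : Finset (Fin n), B.card = m → Ds c B = 0 := by
  obtain ⟨t, rfl⟩ := Nat.exists_eq_add_of_le hm
  induction t with
  | zero => exact h0
  | succ t ih =>
    refine ih (by omega) ?_ (by omega)
    exact Ds_down hc (by omega) (fun B hB => h0 B (by omega))

/-- `G c A B = 0` whenever `|A| + |B| ≤ b`. -/
lemma Gs_zero {b : ℕ} {c : Fn n}
    (h0 : ∀ B : Finset (Fin n), B.card ≤ b → Ds c B = 0) (A : Finset (Fin n)) :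
    ∀ B : Finset (Fin n), A.card + B.card ≤ b → Gs c A B = 0 := by
  induction A using Finset.induction_on with
  | empty =>
    intro B hB
    rw [Gs_empty]
    exact h0 B (by simpa using hB)
  | insert z A hz ih =>
    intro B hB
    rw [card_insert_of_notMem hz] at hB
    have h1 := Gs_split c A B z
    rw [ih B (by omega), ih (insert z B) (by have := card_insert_le z B; omega), add_zero] at h1
    exact h1.symm

/-- Injectivity of the disjointness map from `a`-sets to `b`-sets, `a ≤ b`, `a + b ≤ n`. -/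
lemma Ds_inj {a b : ℕ} {c : Fn n} (hc : c ∈ Md n (a + 1)) (hab : a ≤ b) (h : a + b ≤ n)
    (h0 : ∀ B : Finset (Fin n), B.card = b → Ds c B = 0) : c = 0 := by
  have h1 := Ds_down' hc h h0
  funext A
  by_cases hA : A.card = a
  · rw [← Gs_self hc (A := A) (by omega)]
    exact Gs_zero (fun B hB => h1 B.card hB B rfl) A ∅ (by simp; omega)
  · exact hc A (by omega)

/-- The disjointness map from functions on `{|T| + 1 = a}` to functions on `{|B| + 1 = b}`. -/
noncomputable def Dj (a b : ℕ) : Fn n →ₗ[ℂ] Fn n := Lm (fun T B => Disjoint T B) a b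

lemma Dj_apply {a : ℕ} (b : ℕ) {c : Fn n} (hc : c ∈ Md n a) (B : Finset (Fin n)) :
    Dj a b c B = if B.card + 1 = b then Ds c B else 0 := by
  unfold Dj
  rw [Lm_apply]
  refine if_congr Iff.rfl ?_ rfl
  unfold Ds
  rw [← filter_filter, sum_filter (fun T => Disjoint T B), sum_filter (fun T => Disjoint T B)]
  rw [sum_filter]
  refine sum_congr rfl fun T _ => ?_
  by_cases hT : T.card + 1 = a
  · rw [if_pos hT]
  · rw [if_neg hT, hc T hT]
    simp

lemma Dj_mem (a b : ℕ) (c : Fn n) : Dj a b c ∈ Md n b := Lm_mem _ _ _ _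

lemma Lt_disj (a b : ℕ) : Lt (fun T B : Finset (Fin n) => Disjoint T B) a b = Dj b a := by
  refine LinearMap.ext fun c => funext fun T => ?_
  unfold Dj
  rw [Lt_apply, Lm_apply]
  refine if_congr Iff.rfl (sum_congr (filter_congr fun B _ => ?_) fun _ _ => rfl) rfl
  rw [disjoint_comm]

lemma Dj_inj {a b : ℕ} (hab : a ≤ b) (h : a + b ≤ n + 2) {c : Fn n} (hc : c ∈ Md n a)
    (h0 : Dj a b c = 0) : c = 0 := by
  rcases Nat.eq_zero_or_pos a with rfl | ha
  · funext B
    exact hc B (by omega)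
  · obtain ⟨a, rfl⟩ : ∃ a', a = a' + 1 := ⟨a - 1, by omega⟩
    obtain ⟨b, rfl⟩ : ∃ b', b = b' + 1 := ⟨b - 1, by omega⟩
    refine Ds_inj hc (b := b) (by omega) (by omega) fun B hB => ?_
    have := congrFun h0 B
    rw [Dj_apply _ hc, if_pos (by omega)] at this
    exact this

/-- Surjectivity of the disjointness map from `b`-sets to `a`-sets, `a ≤ b`, `a + b ≤ n`, in the
form `D D`. -/
lemma Dj_surj {a b : ℕ} (hab : a ≤ b) (h : a + b ≤ n + 2) {c : Fn n} (hc : c ∈ Md n a) :
    ∃ c' ∈ Md n a, Dj b a (Dj a b c') = c := by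
  have := LmLt_surj (n := n) (fun T B => Disjoint T B) b a (fun x hx h0 => by
    rw [Lt_disj] at h0
    exact Dj_inj hab h hx h0) hc
  rw [Lt_disj] at this
  exact this

/-! ### Inclusion -/

/-- The map `U`: from functions on `{|A| + 1 = k}` to functions on `{|B| + 1 = k + 1}`,
`U c B = ∑_{A ⊆ B} c A`. -/
noncomputable def Up (k : ℕ) : Fn n →ₗ[ℂ] Fn n := Lt (fun B A => A ⊆ B) (k + 1) k

/-- The transposed map: `Dn c A = ∑_{B ⊇ A} c B`. -/
noncomputable def Dn (k : ℕ) : Fn n →ₗ[ℂ] Fn n := Lm (fun B A => A ⊆ B) (k + 1) k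

lemma Up_apply {k : ℕ} {c : Fn n} (hc : c ∈ Md n k) (B : Finset (Fin n)) :
    Up k c B = if B.card = k then ∑ A with A ⊆ B, c A else 0 := by
  unfold Up
  rw [Lt_apply]
  refine if_congr (by omega) ?_ rfl
  rw [← filter_filter, sum_filter (fun T => T ⊆ B), sum_filter (fun T => T ⊆ B)]
  rw [sum_filter]
  refine sum_congr rfl fun T _ => ?_
  by_cases hT : T.card + 1 = k
  · rw [if_pos hT]
  · rw [if_neg hT, hc T hT]
    simp

lemma Dn_apply {k : ℕ} {c : Fn n} (hc : c ∈ Md n (k + 1)) (A : Finset (Fin n)) :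
    Dn k c A = if A.card + 1 = k then ∑ B with A ⊆ B, c B else 0 := by
  unfold Dn
  rw [Lm_apply]
  refine if_congr Iff.rfl ?_ rfl
  rw [← filter_filter, sum_filter (fun T => A ⊆ T), sum_filter (fun T => A ⊆ T)]
  rw [sum_filter]
  refine sum_congr rfl fun T _ => ?_
  by_cases hT : T.card + 1 = k + 1
  · rw [if_pos hT]
  · rw [if_neg hT, hc T hT]
    simp

lemma Up_mem (k : ℕ) (c : Fn n) : Up k c ∈ Md n (k + 1) := Lt_mem _ _ _ _

lemma Dn_mem (k : ℕ) (c : Fn n) : Dn k c ∈ Md n k := Lm_mem _ _ _ _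

lemma Up_inj {k : ℕ} (h : 2 * k ≤ n + 1) {c : Fn n} (hc : c ∈ Md n k)
    (h0 : Up k c = 0) : c = 0 := by
  rcases Nat.eq_zero_or_pos k with rfl | hk
  · funext B
    exact hc B (by omega)
  · obtain ⟨k, rfl⟩ : ∃ a', k = a' + 1 := ⟨k - 1, by omega⟩
    refine Ds_inj hc (b := n - (k + 1)) (by omega) (by omega) fun B hB => ?_
    have h1 := congrFun h0 Bᶜ
    have hcard : Bᶜ.card = k + 1 := by
      rw [card_compl, Fintype.card_fin, hB]
      omega
    rw [Up_apply hc, if_pos hcard] at h1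
    rw [Pi.zero_apply] at h1
    rw [← h1]
    unfold Ds
    refine sum_congr (filter_congr fun T _ => ?_) fun _ _ => rfl
    rw [subset_compl_iff_disjoint_right]

lemma Specht_le (n k : ℕ) : Specht n k ≤ Md n (k + 1) := fun c hc B hB => hc.1 B (by omega)

lemma mem_Specht_iff {k : ℕ} {c : Fn n} (hc : c ∈ Md n (k + 1)) : c ∈ Specht n k ↔ Dn k c = 0 := by
  constructor
  · intro h
    funext A
    rw [Dn_apply hc]
    split_ifs with hA
    · exact h.2 A hA
    · rfl
  · intro h
    refine ⟨fun B hB => hc B (by omega), fun A hA => ?_⟩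
    have := congrFun h A
    rw [Dn_apply hc, if_pos hA] at this
    exact this

/-- Functions on `k`-sets: Specht part plus the image of `U`. -/
lemma Specht_add_Up {k : ℕ} (h : 2 * k ≤ n + 1) {c : Fn n} (hc : c ∈ Md n (k + 1)) :
    ∃ s ∈ Specht n k, ∃ c' ∈ Md n k, s + Up k c' = c := by
  obtain ⟨c', hc', h1⟩ := LmLt_surj (n := n) (fun B A => A ⊆ B) (k + 1) k
    (fun x hx h0 => Up_inj h hx h0) (Dn_mem k c)
  refine ⟨c - Up k c', ?_, c', hc', by abel⟩
  have hmem : c - Up k c' ∈ Md n (k + 1) := Submodule.sub_mem _ hc (Up_mem _ _)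
  rw [mem_Specht_iff hmem, map_sub]
  change Dn k c - Lm (fun B A => A ⊆ B) (k + 1) k (Lt (fun B A => A ⊆ B) (k + 1) k c') = 0
  rw [h1, sub_self]

lemma Specht_add_Up_inj {k : ℕ} (h : 2 * k ≤ n + 1) {s c' : Fn n} (hs : s ∈ Specht n k)
    (hc' : c' ∈ Md n k) (h0 : s + Up k c' = 0) : s = 0 ∧ c' = 0 := by
  have h1 : Dn k s = 0 := (mem_Specht_iff (Specht_le _ _ hs)).1 hs
  have h2 : Dn k (Up k c') = 0 := by
    have := congrArg (Dn k) h0
    rw [map_add, h1, zero_add, map_zero] at this
    exact this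
  have h3 : Up k c' = 0 := LmLt_eq_zero _ _ _ _ h2
  rw [h3, add_zero] at h0
  exact ⟨h0, Up_inj h hc' h3⟩

/-! ### The kernel of the disjointness map from `j`-sets to `(j-1)`-sets -/

lemma Gs_swap {b : ℕ} {c : Fn n}
    (h0 : ∀ A B : Finset (Fin n), A.card + B.card ≤ b → Gs c A B = 0) (B : Finset (Fin n)) :
    ∀ A : Finset (Fin n), Disjoint A B → A.card + B.card = b + 1 →
      Gs c A B = (-1) ^ B.card * Gs c (A ∪ B) ∅ := by
  induction B using Finset.induction_on with
  | empty =>
    intro A _ _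
    simp
  | insert z B hz ih =>
    intro A hA hcard
    rw [disjoint_insert_right] at hA
    rw [card_insert_of_notMem hz] at hcard ⊢
    have h1 := Gs_split c A B z
    rw [h0 A B (by omega)] at h1
    have h2 := ih (insert z A) (by rw [disjoint_insert_left]; exact ⟨hz, hA.2⟩)
      (by rw [card_insert_of_notMem hA.1]; omega)
    have h3 : insert z A ∪ B = A ∪ insert z B := by
      rw [insert_union, union_insert]
    rw [h2, h3] at h1
    rw [pow_succ]
    linear_combination -h1

/-- The Kneser eigenvalue: on the kernel of the disjointness map from `(b+1)`-sets to `b`-sets the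
disjointness map from `(b+1)`-sets to `(b+1)`-sets is `(-1)^{b+1}`. -/
lemma Ds_kneser {b : ℕ} (hb : 2 * b + 1 ≤ n) {c : Fn n} (hc : c ∈ Md n (b + 2))
    (h0 : ∀ B : Finset (Fin n), B.card = b → Ds c B = 0) (B : Finset (Fin n))
    (hB : B.card = b + 1) : Ds c B = (-1) ^ (b + 1) * c B := by
  have h1 := Ds_down' (a := b + 1) hc (by omega) h0
  have h2 := fun A => Gs_zero (fun B hB => h1 B.card hB B rfl) A
  have h3 := Gs_swap h2 B ∅ (disjoint_empty_left B) (by simp [hB])
  rw [empty_union, Gs_empty, Gs_self hc (by omega), hB] at h3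
  exact h3

end Pool.Agent.K4H30.PM
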