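import Mathlib
import Pool.Agent.K4H30.PM.Disj

/-! # Young's rule for two-row shapes -/

namespace Pool.Agent.K4H30.PM

open Finset

variable {n : ℕ}

lemma spAct_mem {k : ℕ} (σ : Equiv.Perm (Fin n)) {c : Fn n} (hc : c ∈ Md n k) :
    spAct σ c ∈ Md n k := fun B hB => hc _ (by rwa [card_map])

lemma spAct_Lm (r : Finset (Fin n) → Finset (Fin n) → Prop) (σ : Equiv.Perm (Fin n))
    (hr : ∀ T B, r (T.map (σ⁻¹).toEmbedding) (B.map (σ⁻¹).toEmbedding) ↔ r T B) (a b : ℕ)
    (c : Fn n) : Lm r a b (spAct σ c) = spAct σ (Lm r a b c) := by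
  classical
  funext B
  rw [Lm_apply, spAct_apply, Lm_apply, card_map]
  refine if_congr Iff.rfl ?_ rfl
  rw [sum_filter, sum_filter]
  refine Fintype.sum_equiv (setPerm σ) _ _ fun T => ?_
  rw [setPerm_apply, spAct_apply, card_map]
  exact if_congr (by rw [hr]) rfl rfl

lemma spAct_Lt (r : Finset (Fin n) → Finset (Fin n) → Prop) (σ : Equiv.Perm (Fin n))
    (hr : ∀ T B, r (T.map (σ⁻¹).toEmbedding) (B.map (σ⁻¹).toEmbedding) ↔ r T B) (a b : ℕ)
    (c : Fn n) : Lt r a b (spAct σ c) = spAct σ (Lt r a b c) := by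
  classical
  funext B
  rw [Lt_apply, spAct_apply, Lt_apply, card_map]
  refine if_congr Iff.rfl ?_ rfl
  rw [sum_filter, sum_filter]
  refine Fintype.sum_equiv (setPerm σ) _ _ fun T => ?_
  rw [setPerm_apply, spAct_apply, card_map]
  exact if_congr (by rw [hr]) rfl rfl

lemma spAct_Up (σ : Equiv.Perm (Fin n)) (k : ℕ) (c : Fn n) :
    Up k (spAct σ c) = spAct σ (Up k c) :=
  spAct_Lt _ σ (fun T B => by rw [map_subset_map]) _ _ c

lemma spAct_Dj (σ : Equiv.Perm (Fin n)) (a b : ℕ) (c : Fn n) :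
    Dj a b (spAct σ c) = spAct σ (Dj a b c) :=
  spAct_Lm _ σ (fun T B => by rw [disjoint_map]) _ _ c

/-- Young's rule: the functions on `(k-1)`-sets are the sum of the Specht modules `S^{(n-i,i)}`,
`i < k`, when `2(k-1) ≤ n`. -/
lemma young (k : ℕ) (hk : 2 * k ≤ n + 2) :
    ∃ e : ((i : Fin k) → Specht n i) ≃ₗ[ℂ] Md n k,
      ∀ (σ : Equiv.Perm (Fin n)) (φ φ' : (i : Fin k) → Specht n i),
        (∀ i, (φ' i : Fn n) = spAct σ (φ i)) → (e φ' : Fn n) = spAct σ (e φ) := by
  induction k with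
  | zero =>
    have h0 : ∀ c : Md n 0, c = 0 := fun c => by
      apply Subtype.ext
      funext B
      exact c.2 B (by omega)
    refine ⟨LinearEquiv.ofLinearMap 0 0 ?_ ?_, ?_⟩
    · refine LinearMap.ext fun c => ?_
      rw [h0 c, map_zero, map_zero]
    · refine LinearMap.ext fun φ => ?_
      funext i
      exact i.elim0
    · intro σ φ φ' _
      change (0 : Fn n) = spAct σ (0 : Fn n)
      rw [map_zero]
  | succ k ih =>
    obtain ⟨e, he⟩ := ih (by omega)
    let res : ((i : Fin (k + 1)) → Specht n i) →ₗ[ℂ] ((i : Fin k) → Specht n i) :=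
      LinearMap.pi (fun i => LinearMap.proj i.castSucc)
    let top : ((i : Fin (k + 1)) → Specht n i) →ₗ[ℂ] Specht n k :=
      LinearMap.proj (R := ℂ) (φ := fun i : Fin (k + 1) => Specht n i) (Fin.last k)
    let L0 : ((i : Fin (k + 1)) → Specht n i) →ₗ[ℂ] Fn n :=
      (Specht n k).subtype.comp top + (Up k).comp ((Md n k).subtype.comp (e.toLinearMap.comp res))
    have hL0 : ∀ φ, L0 φ = (φ (Fin.last k) : Fn n) + Up k (e (fun i => φ i.castSucc)) :=
      fun φ => rfl
    let L : ((i : Fin (k + 1)) → Specht n i) →ₗ[ℂ] Md n (k + 1) :=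
      L0.codRestrict _ (fun φ => Submodule.add_mem _ (Specht_le _ _ (top φ).2) (Up_mem _ _))
    have hL : ∀ φ, (L φ : Fn n) = (φ (Fin.last k) : Fn n) + Up k (e (fun i => φ i.castSucc)) :=
      fun φ => rfl
    have hinj : Function.Injective L := by
      rw [injective_iff_map_eq_zero]
      intro φ h
      have h1 := congrArg Subtype.val h
      rw [hL] at h1
      obtain ⟨h2, h3⟩ := Specht_add_Up_inj (k := k) (by omega) (φ (Fin.last k)).2
        (e (fun i => φ i.castSucc)).2 h1
      have h4 : (fun i : Fin k => φ i.castSucc) = 0 := by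
        apply e.injective
        rw [map_zero]
        exact Subtype.ext h3
      funext i
      refine Fin.lastCases ?_ (fun i => ?_) i
      · exact Subtype.ext h2
      · exact congrFun h4 i
    have hsurj : Function.Surjective L := by
      rintro ⟨c, hc⟩
      obtain ⟨s, hs, c', hc', h1⟩ := Specht_add_Up (k := k) (by omega) hc
      refine ⟨Fin.snoc (α := fun i : Fin (k + 1) => Specht n i) (e.symm ⟨c', hc'⟩) ⟨s, hs⟩, ?_⟩
      apply Subtype.ext
      rw [hL]
      have h2 : (fun i : Fin k => (Fin.snoc (α := fun i : Fin (k + 1) => Specht n i)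
          (e.symm ⟨c', hc'⟩) ⟨s, hs⟩ : (i : Fin (k + 1)) → Specht n i) i.castSucc) =
          e.symm ⟨c', hc'⟩ := by
        funext i
        rw [Fin.snoc_castSucc]
      rw [Fin.snoc_last]
      have h3 : e (fun i : Fin k => (Fin.snoc (α := fun i : Fin (k + 1) => Specht n i)
          (e.symm ⟨c', hc'⟩) ⟨s, hs⟩ : (i : Fin (k + 1)) → Specht n i) i.castSucc) = ⟨c', hc'⟩ := by
        rw [h2, LinearEquiv.apply_symm_apply]
      rw [h3]
      exact h1
    refine ⟨LinearEquiv.ofBijective L ⟨hinj, hsurj⟩, fun σ φ φ' h => ?_⟩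
    rw [LinearEquiv.ofBijective_apply, LinearEquiv.ofBijective_apply, hL, hL, map_add,
      ← spAct_Up, h (Fin.last k)]
    congr 2
    exact he σ _ _ (fun i => h i.castSucc)

/-- Gluing two copies. -/
lemma young2 {κ : Type} [Fintype κ] (f : κ → ℕ) (a b : ℕ) (ha : 2 * a ≤ n + 2)
    (hb : 2 * b ≤ n + 2) (e : κ ≃ Fin a ⊕ Fin b)
    (hf : ∀ y, f (e.symm y) = Sum.elim (fun i : Fin a => (i : ℕ)) (fun i : Fin b => (i : ℕ)) y) :
    ∃ E : ((x : κ) → Specht n (f x)) ≃ₗ[ℂ] (Md n a × Md n b),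
      ∀ (σ : Equiv.Perm (Fin n)) (φ φ' : (x : κ) → Specht n (f x)),
        (∀ x, (φ' x : Fn n) = spAct σ (φ x)) →
          ((E φ').1 : Fn n) = spAct σ (E φ).1 ∧ ((E φ').2 : Fn n) = spAct σ (E φ).2 := by
  obtain ⟨e1, h1⟩ := young (n := n) a ha
  obtain ⟨e2, h2⟩ := young (n := n) b hb
  let A1 : ((x : κ) → Specht n (f x)) →ₗ[ℂ] ((i : Fin a) → Specht n i) :=
    LinearMap.pi (fun i => (LinearEquiv.ofEq _ _ (by rw [hf]; rfl) :
      Specht n (f (e.symm (Sum.inl i))) ≃ₗ[ℂ] Specht n i).toLinearMap.comp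
        (LinearMap.proj (e.symm (Sum.inl i))))
  let A2 : ((x : κ) → Specht n (f x)) →ₗ[ℂ] ((i : Fin b) → Specht n i) :=
    LinearMap.pi (fun i => (LinearEquiv.ofEq _ _ (by rw [hf]; rfl) :
      Specht n (f (e.symm (Sum.inr i))) ≃ₗ[ℂ] Specht n i).toLinearMap.comp
        (LinearMap.proj (e.symm (Sum.inr i))))
  have hA1 : ∀ φ i, (A1 φ i : Fn n) = φ (e.symm (Sum.inl i)) := fun φ i => rfl
  have hA2 : ∀ φ i, (A2 φ i : Fn n) = φ (e.symm (Sum.inr i)) := fun φ i => rfl
  let L : ((x : κ) → Specht n (f x)) →ₗ[ℂ] (Md n a × Md n b) :=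
    (e1.toLinearMap.comp A1).prod (e2.toLinearMap.comp A2)
  have hinj : Function.Injective L := by
    rw [injective_iff_map_eq_zero]
    intro φ h
    have g1 : A1 φ = 0 := e1.injective (by rw [map_zero]; exact congrArg Prod.fst h)
    have g2 : A2 φ = 0 := e2.injective (by rw [map_zero]; exact congrArg Prod.snd h)
    funext x
    apply Subtype.ext
    obtain ⟨y, rfl⟩ := e.symm.surjective x
    rcases y with i | i
    · rw [← hA1, g1]; rfl
    · rw [← hA2, g2]; rfl
  have hsurj : Function.Surjective L := by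
    rintro ⟨c, c'⟩
    have key : ∀ x : κ, ∃ s : Specht n (f x),
        (∀ i, e.symm (Sum.inl i) = x → (s : Fn n) = e1.symm c i) ∧
        (∀ i, e.symm (Sum.inr i) = x → (s : Fn n) = e2.symm c' i) := by
      intro x
      obtain ⟨y, rfl⟩ := e.symm.surjective x
      rcases y with i | i
      · refine ⟨⟨e1.symm c i, ?_⟩, fun j hj => ?_, fun j hj => ?_⟩
        · rw [hf]; exact (e1.symm c i).2
        · have := e.symm.injective hj
          rw [Sum.inl.injEq] at this
          rw [this]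
        · have := e.symm.injective hj
          cases this
      · refine ⟨⟨e2.symm c' i, ?_⟩, fun j hj => ?_, fun j hj => ?_⟩
        · rw [hf]; exact (e2.symm c' i).2
        · have := e.symm.injective hj
          cases this
        · have := e.symm.injective hj
          rw [Sum.inr.injEq] at this
          rw [this]
    choose φ hφ1 hφ2 using key
    refine ⟨φ, Prod.ext ?_ ?_⟩
    · change e1 (A1 φ) = c
      have : A1 φ = e1.symm c := by
        funext i
        apply Subtype.ext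
        rw [hA1]
        exact hφ1 _ i rfl
      rw [this, LinearEquiv.apply_symm_apply]
    · change e2 (A2 φ) = c'
      have : A2 φ = e2.symm c' := by
        funext i
        apply Subtype.ext
        rw [hA2]
        exact hφ2 _ i rfl
      rw [this, LinearEquiv.apply_symm_apply]
  refine ⟨LinearEquiv.ofBijective L ⟨hinj, hsurj⟩, fun σ φ φ' h => ⟨?_, ?_⟩⟩
  · exact h1 σ _ _ (fun i => h _)
  · exact h2 σ _ _ (fun i => h _)

end Pool.Agent.K4H30.PM
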