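import Mathlib
import Pool.Agent.K4H30.PM.Young

/-! # The polynomials attached to functions on subsets -/

namespace Pool.Agent.K4H30.PM

open Finset MvPolynomial

variable {n : ℕ}

/-- The squarefree monomial of a set. -/
noncomputable def xm (B : Finset (Fin n)) : MvPolynomial (Fin n) ℂ := ∏ b ∈ B, X b

/-- `∑_{i ∈ A} x_i² ∏_{b ∈ A, b ≠ i} x_b`. -/
noncomputable def ym (A : Finset (Fin n)) : MvPolynomial (Fin n) ℂ := (∑ i ∈ A, X i) * xm A

/-- `∑_B c(B) x_B`. -/
noncomputable def xmap : Fn n →ₗ[ℂ] MvPolynomial (Fin n) ℂ :=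
  ∑ B : Finset (Fin n), (LinearMap.proj B : Fn n →ₗ[ℂ] ℂ).smulRight (xm B)

/-- `∑_A c(A) y_A`. -/
noncomputable def ymap : Fn n →ₗ[ℂ] MvPolynomial (Fin n) ℂ :=
  ∑ A : Finset (Fin n), (LinearMap.proj A : Fn n →ₗ[ℂ] ℂ).smulRight (ym A)

lemma xmap_apply (c : Fn n) : xmap c = ∑ B, c B • xm B := by
  unfold xmap
  rw [LinearMap.sum_apply]
  rfl

lemma ymap_apply (c : Fn n) : ymap c = ∑ B, c B • ym B := by
  unfold ymap
  rw [LinearMap.sum_apply]
  rfl

/-! ### Derivatives -/

lemma pderiv_xm_notMem {m : Fin n} {B : Finset (Fin n)} (h : m ∉ B) : pderiv m (xm B) = 0 := by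
  unfold xm
  induction B using Finset.induction_on with
  | empty => simp
  | insert a s ha ih =>
    rw [mem_insert, not_or] at h
    rw [prod_insert ha, pderiv_mul, ih h.2, pderiv_X_of_ne (Ne.symm h.1)]
    simp

lemma xm_erase {m : Fin n} {B : Finset (Fin n)} (h : m ∈ B) : X m * xm (B.erase m) = xm B := by
  unfold xm
  exact mul_prod_erase B (fun b => (X b : MvPolynomial (Fin n) ℂ)) h

lemma pderiv_xm_mem {m : Fin n} {B : Finset (Fin n)} (h : m ∈ B) :
    pderiv m (xm B) = xm (B.erase m) := by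
  rw [← xm_erase h, pderiv_mul, pderiv_X_self, pderiv_xm_notMem (notMem_erase m B)]
  simp

lemma pderiv_lin (m : Fin n) (A : Finset (Fin n)) :
    pderiv m (∑ i ∈ A, (X i : MvPolynomial (Fin n) ℂ)) = if m ∈ A then 1 else 0 := by
  rw [map_sum]
  simp only [pderiv_X, Pi.single_apply]
  rw [sum_ite_eq']

lemma pderiv_ym_notMem {m : Fin n} {A : Finset (Fin n)} (h : m ∉ A) : pderiv m (ym A) = 0 := by
  unfold ym
  rw [pderiv_mul, pderiv_lin, if_neg h, pderiv_xm_notMem h]
  simp

lemma pderiv_ym_mem {m : Fin n} {A : Finset (Fin n)} (h : m ∈ A) :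
    pderiv m (ym A) = (2 : ℂ) • xm A + ym (A.erase m) := by
  have h1 : ∑ i ∈ A, (X i : MvPolynomial (Fin n) ℂ) = X m + ∑ i ∈ A.erase m, X i :=
    (add_sum_erase A (fun b => (X b : MvPolynomial (Fin n) ℂ)) h).symm
  unfold ym
  rw [pderiv_mul, pderiv_lin, if_pos h, pderiv_xm_mem h, h1, add_mul, xm_erase h, two_smul]
  ring

/-- Shift of a function by an element. -/
noncomputable def sh (m : Fin n) : Fn n →ₗ[ℂ] Fn n where
  toFun c B := if m ∈ B then 0 else c (insert m B)
  map_add' c c' := by
    funext B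
    simp only [Pi.add_apply]
    split_ifs <;> simp
  map_smul' r c := by
    funext B
    simp only [Pi.smul_apply, RingHom.id_apply]
    split_ifs <;> simp

/-- Restriction of a function to the sets containing an element. -/
noncomputable def kp (m : Fin n) : Fn n →ₗ[ℂ] Fn n where
  toFun c B := if m ∈ B then c B else 0
  map_add' c c' := by
    funext B
    simp only [Pi.add_apply]
    split_ifs <;> simp
  map_smul' r c := by
    funext B
    simp only [Pi.smul_apply, RingHom.id_apply]
    split_ifs <;> simp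

lemma sh_apply (m : Fin n) (c : Fn n) (B : Finset (Fin n)) :
    sh m c B = if m ∈ B then 0 else c (insert m B) := rfl

lemma kp_apply (m : Fin n) (c : Fn n) (B : Finset (Fin n)) :
    kp m c B = if m ∈ B then c B else 0 := rfl

lemma sh_sh (m : Fin n) (c : Fn n) : sh m (sh m c) = 0 := by
  funext B
  rw [sh_apply, sh_apply, if_pos (mem_insert_self m B)]
  simp

lemma sh_kp (m : Fin n) (c : Fn n) : sh m (kp m c) = sh m c := by
  funext B
  rw [sh_apply, sh_apply, kp_apply, if_pos (mem_insert_self m B)]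

lemma kp_sh (m : Fin n) (c : Fn n) : kp m (sh m c) = 0 := by
  funext B
  rw [kp_apply, sh_apply]
  split_ifs <;> rfl

lemma sum_shift {M : Type*} [AddCommMonoid M] (m : Fin n) (c : Fn n)
    (f : ℂ → Finset (Fin n) → M) (hf : ∀ B, f 0 B = 0) :
    ∑ B, (if m ∈ B then f (c B) (B.erase m) else 0) = ∑ B, f (sh m c B) B := by
  rw [← sum_filter]
  have h : ∑ B, f (sh m c B) B = ∑ B with m ∉ B, f (c (insert m B)) B := by
    rw [sum_filter]
    refine sum_congr rfl fun B _ => ?_
    rw [sh_apply]
    by_cases hB : m ∈ B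
    · rw [if_pos hB, if_neg (not_not.2 hB), hf]
    · rw [if_neg hB, if_pos hB]
  rw [h]
  refine sum_nbij' (fun B => B.erase m) (fun B => insert m B) ?_ ?_ ?_ ?_ ?_
  · intro B hB
    simp
  · intro B hB
    simp
  · intro B hB
    rw [mem_filter] at hB
    exact insert_erase hB.2
  · intro B hB
    rw [mem_filter] at hB
    exact erase_insert hB.2
  · intro B hB
    rw [mem_filter] at hB
    rw [insert_erase hB.2]

lemma pderiv_xmap (m : Fin n) (c : Fn n) : pderiv m (xmap c) = xmap (sh m c) := by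
  rw [xmap_apply, xmap_apply, map_sum,
    ← sum_shift m c (fun z B => z • xm B) (fun B => zero_smul _ _)]
  refine sum_congr rfl fun B _ => ?_
  rw [Derivation.map_smul]
  split_ifs with h
  · rw [pderiv_xm_mem h]
  · rw [pderiv_xm_notMem h, smul_zero]

lemma pderiv_ymap (m : Fin n) (c : Fn n) :
    pderiv m (ymap c) = (2 : ℂ) • xmap (kp m c) + ymap (sh m c) := by
  rw [ymap_apply, ymap_apply, xmap_apply, map_sum,
    ← sum_shift m c (fun z B => z • ym B) (fun B => zero_smul _ _), smul_sum, ← sum_add_distrib]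
  refine sum_congr rfl fun B _ => ?_
  rw [Derivation.map_smul, kp_apply]
  split_ifs with h
  · rw [pderiv_ym_mem h, smul_add, smul_comm]
  · rw [pderiv_ym_notMem h, smul_zero]
    simp

lemma pderiv_pderiv (m : Fin n) (c c' : Fn n) :
    pderiv m (pderiv m (xmap c + ymap c')) = pderiv m ((2 : ℂ) • xmap c') := by
  simp only [map_add, pderiv_xmap, pderiv_ymap, Derivation.map_smul, sh_sh, sh_kp, kp_sh]
  simp

lemma pderiv_pderiv_pderiv (m : Fin n) (c c' : Fn n) :
    pderiv m (pderiv m (pderiv m (xmap c + ymap c'))) = 0 := by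
  rw [pderiv_pderiv, Derivation.map_smul, pderiv_xmap, Derivation.map_smul, pderiv_xmap, sh_sh]
  simp

/-! ### Coefficients -/

/-- The exponent of `xm B`. -/
noncomputable def ex (B : Finset (Fin n)) : Fin n →₀ ℕ := ∑ b ∈ B, Finsupp.single b 1

lemma ex_apply (B : Finset (Fin n)) (i : Fin n) : ex B i = if i ∈ B then 1 else 0 := by
  unfold ex
  rw [Finsupp.finsetSum_apply]
  simp only [Finsupp.single_apply]
  rw [sum_ite_eq']

lemma ex_inj {B B' : Finset (Fin n)} (h : ex B = ex B') : B = B' := by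
  ext i
  have := DFunLike.congr_fun h i
  rw [ex_apply, ex_apply] at this
  by_cases h1 : i ∈ B <;> by_cases h2 : i ∈ B' <;> simp [h1, h2] at this ⊢

lemma xm_eq (B : Finset (Fin n)) : xm B = monomial (ex B) 1 := by
  unfold xm ex
  rw [monomial_sum_one]
  rfl

lemma coeff_xmap (c : Fn n) (B : Finset (Fin n)) : coeff (ex B) (xmap c) = c B := by
  classical
  rw [xmap_apply, coeff_sum, sum_eq_single B]
  · rw [coeff_smul, xm_eq, coeff_monomial, if_pos rfl, smul_eq_mul, mul_one]
  · intro B' _ hB'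
    rw [coeff_smul, xm_eq, coeff_monomial, if_neg (fun h => hB' (ex_inj h)), smul_zero]
  · intro h
    simp at h

lemma xmap_inj {c : Fn n} (h : xmap c = 0) : c = 0 := by
  funext B
  rw [← coeff_xmap c B, h]
  simp

lemma xymap_inj {c c' : Fn n} (h0 : c' ∅ = 0) (h : xmap c + ymap c' = 0) : c = 0 ∧ c' = 0 := by
  have h1 : c' = 0 := by
    funext B
    rcases B.eq_empty_or_nonempty with rfl | ⟨m, hm⟩
    · exact h0
    · have h2 := pderiv_pderiv m c c'
      rw [h, map_zero, map_zero, Derivation.map_smul, pderiv_xmap, ← map_smul] at h2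
      have h3 := congrFun (xmap_inj h2.symm) (B.erase m)
      rw [Pi.smul_apply, sh_apply, if_neg (notMem_erase m B), insert_erase hm] at h3
      simpa using h3
  refine ⟨?_, h1⟩
  rw [h1, map_zero, add_zero] at h
  exact xmap_inj h

/-! ### Homogeneity -/

lemma xm_hom (B : Finset (Fin n)) : (xm B).IsHomogeneous B.card := by
  unfold xm
  have := IsHomogeneous.prod B (fun b => (X b : MvPolynomial (Fin n) ℂ)) (fun _ => 1)
    (fun b _ => isHomogeneous_X ℂ b)
  simpa using this

lemma ym_hom (B : Finset (Fin n)) : (ym B).IsHomogeneous (1 + B.card) := by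
  unfold ym
  exact (IsHomogeneous.sum _ _ _ fun b _ => isHomogeneous_X ℂ b).mul (xm_hom B)

lemma xmap_hom {j : ℕ} {c : Fn n} (hc : c ∈ Md n (j + 1)) : (xmap c).IsHomogeneous j := by
  rw [xmap_apply, ← mem_homogeneousSubmodule]
  refine Submodule.sum_mem _ fun B _ => ?_
  by_cases hB : B.card + 1 = j + 1
  · refine Submodule.smul_mem _ _ ?_
    rw [mem_homogeneousSubmodule, ← Nat.succ_injective hB]
    exact xm_hom B
  · rw [hc B hB, zero_smul]
    exact Submodule.zero_mem _

lemma ymap_hom {j : ℕ} {c : Fn n} (hc : c ∈ Md n j) : (ymap c).IsHomogeneous j := by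
  rw [ymap_apply, ← mem_homogeneousSubmodule]
  refine Submodule.sum_mem _ fun B _ => ?_
  by_cases hB : B.card + 1 = j
  · refine Submodule.smul_mem _ _ ?_
    rw [mem_homogeneousSubmodule, ← hB, add_comm]
    exact ym_hom B
  · rw [hc B hB, zero_smul]
    exact Submodule.zero_mem _

/-! ### Permutations -/

lemma rename_xm (σ : Equiv.Perm (Fin n)) (B : Finset (Fin n)) :
    rename σ (xm B) = xm (B.map σ.toEmbedding) := by
  unfold xm
  rw [map_prod, prod_map]
  simp

lemma rename_ym (σ : Equiv.Perm (Fin n)) (B : Finset (Fin n)) :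
    rename σ (ym B) = ym (B.map σ.toEmbedding) := by
  unfold ym
  rw [map_mul, rename_xm, map_sum, sum_map]
  simp

lemma rename_xmap (σ : Equiv.Perm (Fin n)) (c : Fn n) :
    rename σ (xmap c) = xmap (spAct σ c) := by
  rw [xmap_apply, xmap_apply, map_sum]
  refine Fintype.sum_equiv (setPerm σ).symm _ _ fun B => ?_
  rw [map_smul, rename_xm, spAct_apply, ← setPerm_apply, Equiv.apply_symm_apply]
  rfl

lemma rename_ymap (σ : Equiv.Perm (Fin n)) (c : Fn n) :
    rename σ (ymap c) = ymap (spAct σ c) := by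
  rw [ymap_apply, ymap_apply, map_sum]
  refine Fintype.sum_equiv (setPerm σ).symm _ _ fun B => ?_
  rw [map_smul, rename_ym, spAct_apply, ← setPerm_apply, Equiv.apply_symm_apply]
  rfl

/-! ### The generators -/

/-- Indicator of the `(k-1)`-sets disjoint from `S`. -/
noncomputable def ec (S : Finset (Fin n)) (k : ℕ) : Fn n :=
  fun B => if B.card + 1 = k ∧ Disjoint B S then 1 else 0

/-- Indicator of the `(k-1)`-sets meeting `T` in exactly one element. -/
noncomputable def nc (T : Finset (Fin n)) (k : ℕ) : Fn n :=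
  fun B => if B.card + 1 = k ∧ (B ∩ T).card = 1 then 1 else 0

lemma ec_mem (S : Finset (Fin n)) (k : ℕ) : ec S k ∈ Md n k := fun B hB => by
  unfold ec
  rw [if_neg fun h => hB h.1]

lemma nc_mem (S : Finset (Fin n)) (k : ℕ) : nc S k ∈ Md n k := fun B hB => by
  unfold nc
  rw [if_neg fun h => hB h.1]

/-- The elementary symmetric polynomial of degree `j` in the variables outside `S`. -/
noncomputable def eP (S : Finset (Fin n)) (j : ℕ) : MvPolynomial (Fin n) ℂ := xmap (ec S (j + 1))

/-- The derivative `∂_T m_{(2,1^{d-2})}`, `d = |T| + j`. -/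
noncomputable def fP (T : Finset (Fin n)) (j : ℕ) : MvPolynomial (Fin n) ℂ :=
  (2 : ℂ) • xmap (nc T (j + 1)) + ymap (ec T j)

lemma sh_ec_mem {m : Fin n} {S : Finset (Fin n)} (h : m ∈ S) (k : ℕ) : sh m (ec S (k + 1)) = 0 := by
  funext B
  rw [sh_apply]
  unfold ec
  rw [if_neg (c := _ ∧ _)]
  · simp
  · rw [disjoint_insert_left]
    tauto

lemma sh_ec_notMem {m : Fin n} {S : Finset (Fin n)} (h : m ∉ S) (k : ℕ) :
    sh m (ec S (k + 1)) = ec (insert m S) k := by
  funext B
  rw [sh_apply]
  unfold ec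
  by_cases hB : m ∈ B
  · rw [if_pos hB, if_neg]
    rw [disjoint_insert_right]
    tauto
  · rw [if_neg hB]
    refine if_congr ?_ rfl rfl
    rw [disjoint_insert_left, disjoint_insert_right, card_insert_of_notMem hB]
    constructor
    · rintro ⟨h1, h2, h3⟩
      exact ⟨by omega, hB, h3⟩
    · rintro ⟨h1, h2, h3⟩
      exact ⟨by omega, h, h3⟩

lemma pderiv_eP_mem {m : Fin n} {S : Finset (Fin n)} (h : m ∈ S) (j : ℕ) :
    pderiv m (eP S j) = 0 := by
  unfold eP
  rw [pderiv_xmap, sh_ec_mem h, map_zero]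

lemma pderiv_eP_notMem {m : Fin n} {S : Finset (Fin n)} (h : m ∉ S) (j : ℕ) :
    pderiv m (eP S (j + 1)) = eP (insert m S) j := by
  unfold eP
  rw [pderiv_xmap, sh_ec_notMem h]

lemma pderiv_fP_mem {m : Fin n} {T : Finset (Fin n)} (h : m ∈ T) (j : ℕ) :
    pderiv m (fP T (j + 1)) = (2 : ℂ) • eP T j := by
  unfold fP eP
  rw [map_add, Derivation.map_smul, pderiv_xmap, pderiv_ymap, sh_ec_mem h, map_zero, add_zero]
  have h1 : kp m (ec T (j + 1)) = 0 := by
    funext B
    rw [kp_apply]
    unfold ec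
    split_ifs with h1 h2
    · exact absurd h (disjoint_left.1 h2.2 h1)
    · rfl
    · rfl
  have h2 : sh m (nc T (j + 1 + 1)) = ec T (j + 1) := by
    funext B
    rw [sh_apply]
    unfold nc ec
    by_cases hB : m ∈ B
    · rw [if_pos hB, if_neg]
      rintro ⟨h3, h4⟩
      exact disjoint_left.1 h4 hB h
    · rw [if_neg hB, card_insert_of_notMem hB, insert_inter_of_mem h,
        card_insert_of_notMem (fun h3 => hB (mem_inter.1 h3).1)]
      refine if_congr ?_ rfl rfl
      rw [disjoint_iff_inter_eq_empty, ← card_eq_zero]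
      omega
  rw [h1, h2]
  simp

lemma pderiv_fP_notMem {m : Fin n} {T : Finset (Fin n)} (h : m ∉ T) (j : ℕ) :
    pderiv m (fP T (j + 1)) = fP (insert m T) j := by
  unfold fP
  rw [map_add, Derivation.map_smul, pderiv_xmap, pderiv_ymap, sh_ec_notMem h, ← add_assoc,
    ← smul_add, ← map_add]
  congr 4
  funext B
  rw [Pi.add_apply, sh_apply, kp_apply]
  unfold nc ec
  by_cases hB : m ∈ B
  · rw [if_pos hB, if_pos hB, zero_add, inter_insert_of_mem hB,
      card_insert_of_notMem (fun h3 => h (mem_inter.1 h3).2)]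
    refine if_congr ?_ rfl rfl
    rw [disjoint_iff_inter_eq_empty, ← card_eq_zero]
    omega
  · rw [if_neg hB, if_neg hB, add_zero, card_insert_of_notMem hB, insert_inter_of_notMem h,
      inter_insert_of_notMem hB]
    refine if_congr ?_ rfl rfl
    omega

lemma fP_zero (T : Finset (Fin n)) : fP T 0 = 0 := by
  unfold fP
  have h1 : nc T (0 + 1) = 0 := by
    funext B
    unfold nc
    rw [if_neg]
    · rfl
    · rintro ⟨h1, h2⟩
      have : B = ∅ := card_eq_zero.1 (by omega)
      rw [this] at h2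
      simp at h2
  have h2 : ec T 0 = 0 := by
    funext B
    unfold ec
    rw [if_neg]
    · rfl
    · rintro ⟨h1, h2⟩
      omega
  rw [h1, h2]
  simp

lemma m21_eq {d : ℕ} (hd : 2 ≤ d) : m21 n d = fP ∅ d := by
  unfold fP
  have h1 : nc (∅ : Finset (Fin n)) (d + 1) = 0 := by
    funext B
    unfold nc
    rw [if_neg]
    · rfl
    · simp
  rw [h1, map_zero, smul_zero, zero_add, ymap_apply]
  have h2 : ∀ B : Finset (Fin n), ec ∅ d B • ym B = ∑ j : Fin n,
      if B.card + 1 = d ∧ j ∈ B then X j * xm B else 0 := by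
    intro B
    unfold ec ym
    by_cases hB : B.card + 1 = d
    · rw [if_pos ⟨hB, disjoint_empty_right B⟩, one_smul, sum_mul]
      simp only [hB, true_and]
      rw [← sum_filter]
      refine sum_congr ?_ fun _ _ => rfl
      ext i
      simp
    · rw [if_neg (fun h => hB h.1), zero_smul]
      simp [hB]
  rw [sum_congr rfl fun B _ => h2 B, sum_comm]
  unfold m21
  refine sum_congr rfl fun j _ => ?_
  rw [← sum_filter]
  refine sum_nbij' (fun B => insert j B) (fun B => B.erase j) ?_ ?_ ?_ ?_ ?_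
  · intro B hB
    rw [mem_powersetCard] at hB
    have hj : j ∉ B := fun h => by simpa using hB.1 h
    rw [mem_filter, card_insert_of_notMem hj]
    exact ⟨mem_univ _, by omega, mem_insert_self _ _⟩
  · intro B hB
    rw [mem_filter] at hB
    rw [mem_powersetCard, card_erase_of_mem hB.2.2]
    exact ⟨erase_subset_erase j (subset_univ B), by omega⟩
  · intro B hB
    rw [mem_powersetCard] at hB
    exact erase_insert fun h => by simpa using hB.1 h
  · intro B hB
    rw [mem_filter] at hB
    exact insert_erase hB.2.2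
  · intro B hB
    rw [mem_powersetCard] at hB
    have hj : j ∉ B := fun h => by simpa using hB.1 h
    unfold xm
    rw [prod_insert hj]
    ring

end Pool.Agent.K4H30.PM
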