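import Mathlib
import Pool.Agent.K4H30.PM.Poly

/-! # The homogeneous parts `V_j` of the space of derivatives, and their structure -/

namespace Pool.Agent.K4H30.PM

open Finset MvPolynomial

variable {n : ℕ}

/-- The map with matrix `[|B ∩ T| = 1]`. -/
noncomputable def Nj (a b : ℕ) : Fn n →ₗ[ℂ] Fn n := Lm (fun T B => (B ∩ T).card = 1) a b

lemma Nj_mem (a b : ℕ) (c : Fn n) : Nj a b c ∈ Md n b := Lm_mem _ _ _ _

lemma spAct_Nj (σ : Equiv.Perm (Fin n)) (a b : ℕ) (c : Fn n) :
    Nj a b (spAct σ c) = spAct σ (Nj a b c) :=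
  spAct_Lm _ σ (fun T B => by rw [← map_inter, card_map]) _ _ c

/-- `c ↦ ∑_S c_S e_j(S^c)`, `|S| + 1 + j = d`. -/
noncomputable def Emap (d j : ℕ) : Fn n →ₗ[ℂ] MvPolynomial (Fin n) ℂ :=
  xmap.comp (Dj (d - j) (j + 1))

/-- `c ↦ ∑_T c_T ∂_T m_{(2,1^{d-2})}`, `|T| + j = d`. -/
noncomputable def Fmap (d j : ℕ) : Fn n →ₗ[ℂ] MvPolynomial (Fin n) ℂ :=
  (2 : ℂ) • xmap.comp (Nj (d - j + 1) (j + 1)) + ymap.comp (Dj (d - j + 1) j)

lemma Emap_apply (d j : ℕ) (c : Fn n) : Emap d j c = xmap (Dj (d - j) (j + 1) c) := rfl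

lemma Fmap_apply (d j : ℕ) (c : Fn n) :
    Fmap d j c = (2 : ℂ) • xmap (Nj (d - j + 1) (j + 1) c) + ymap (Dj (d - j + 1) j c) := rfl

/-- The space `V_j`. -/
noncomputable def V (n d j : ℕ) : Submodule ℂ (MvPolynomial (Fin n) ℂ) :=
  (Md n (d - j + 1)).map (Fmap d j) ⊔ (Md n (d - j)).map (Emap d j)

lemma mem_V {d j : ℕ} {g : MvPolynomial (Fin n) ℂ} : g ∈ V n d j ↔
    ∃ c ∈ Md n (d - j + 1), ∃ c' ∈ Md n (d - j), Fmap d j c + Emap d j c' = g := by
  unfold V
  rw [Submodule.mem_sup]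
  constructor
  · rintro ⟨_, ⟨c, hc, rfl⟩, _, ⟨c', hc', rfl⟩, h⟩
    exact ⟨c, hc, c', hc', h⟩
  · rintro ⟨c, hc, c', hc', h⟩
    exact ⟨_, ⟨c, hc, rfl⟩, _, ⟨c', hc', rfl⟩, h⟩

lemma F_mem_V {d j : ℕ} {c : Fn n} (hc : c ∈ Md n (d - j + 1)) : Fmap d j c ∈ V n d j :=
  mem_V.2 ⟨c, hc, 0, Submodule.zero_mem _, by simp⟩

lemma E_mem_V {d j : ℕ} {c : Fn n} (hc : c ∈ Md n (d - j)) : Emap d j c ∈ V n d j :=
  mem_V.2 ⟨0, Submodule.zero_mem _, c, hc, by simp⟩

/-! ### Generators -/

lemma Lm_single (r : Finset (Fin n) → Finset (Fin n) → Prop) [∀ T B, Decidable (r T B)] (a b : ℕ)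
    (T : Finset (Fin n)) (hT : T.card + 1 = a) :
    Lm r a b (Pi.single T 1) = fun B => if B.card + 1 = b ∧ r T B then 1 else 0 := by
  funext B
  rw [Lm_apply]
  by_cases h : B.card + 1 = b
  · rw [if_pos h, sum_filter, sum_eq_single T]
    · by_cases h2 : r T B
      · simp [hT, h, h2]
      · simp [hT, h, h2]
    · intro T' _ hne
      rw [Pi.single_eq_of_ne hne]
      simp
    · intro h
      simp at h
  · rw [if_neg h, if_neg (fun h2 => h h2.1)]

lemma Emap_single {d j : ℕ} {S : Finset (Fin n)} (hS : S.card + 1 = d - j) :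
    Emap d j (Pi.single S 1) = eP S j := by
  rw [Emap_apply]
  unfold Dj eP
  rw [Lm_single _ _ _ S hS]
  congr 1
  funext B
  unfold ec
  exact if_congr (by rw [disjoint_comm]) rfl rfl

lemma Fmap_single {d j : ℕ} {T : Finset (Fin n)} (hT : T.card = d - j) :
    Fmap d j (Pi.single T 1) = fP T j := by
  rw [Fmap_apply]
  unfold Dj Nj fP
  rw [Lm_single _ _ _ T (by omega), Lm_single _ _ _ T (by omega)]
  congr 2
  funext B
  unfold ec
  exact if_congr (by rw [disjoint_comm]) rfl rfl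

lemma single_mem {k : ℕ} {T : Finset (Fin n)} (hT : T.card + 1 = k) :
    (Pi.single T 1 : Fn n) ∈ Md n k := fun B hB => by
  rw [Pi.single_eq_of_ne]
  rintro rfl
  exact hB hT

lemma fP_mem {d j : ℕ} {T : Finset (Fin n)} (hT : T.card + j = d) : fP T j ∈ V n d j := by
  rw [← Fmap_single (d := d) (by omega)]
  exact F_mem_V (single_mem (by omega))

lemma eP_mem {d j : ℕ} {S : Finset (Fin n)} (hS : S.card + 1 + j = d) : eP S j ∈ V n d j := by
  rw [← Emap_single (d := d) (by omega)]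
  exact E_mem_V (single_mem (by omega))

lemma expand (L : Fn n →ₗ[ℂ] MvPolynomial (Fin n) ℂ) (c : Fn n) :
    L c = ∑ T, c T • L (Pi.single T 1) := by
  rw [LinearMap.pi_apply_eq_sum_univ L c]
  refine sum_congr rfl fun T _ => ?_
  congr 2
  funext B
  rw [Pi.single_apply]
  exact if_congr eq_comm rfl rfl

lemma V_le {d j : ℕ} (hj : j ≤ d) {W : Submodule ℂ (MvPolynomial (Fin n) ℂ)}
    (h1 : ∀ T : Finset (Fin n), T.card + j = d → fP T j ∈ W)
    (h2 : ∀ S : Finset (Fin n), S.card + 1 + j = d → eP S j ∈ W) : V n d j ≤ W := by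
  intro g hg
  obtain ⟨c, hc, c', hc', rfl⟩ := mem_V.1 hg
  refine Submodule.add_mem _ ?_ ?_
  · rw [expand]
    refine Submodule.sum_mem _ fun T _ => ?_
    by_cases hT : T.card + 1 = d - j + 1
    · rw [Fmap_single (by omega)]
      exact Submodule.smul_mem _ _ (h1 T (by omega))
    · rw [hc T hT, zero_smul]
      exact Submodule.zero_mem _
  · rw [expand]
    refine Submodule.sum_mem _ fun T _ => ?_
    by_cases hT : T.card + 1 = d - j
    · rw [Emap_single hT]
      exact Submodule.smul_mem _ _ (h2 T (by omega))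
    · rw [hc' T hT, zero_smul]
      exact Submodule.zero_mem _

/-! ### Properties of `V` -/

lemma V_hom {d j : ℕ} {g : MvPolynomial (Fin n) ℂ} (hg : g ∈ V n d j) : g.IsHomogeneous j := by
  obtain ⟨c, hc, c', hc', rfl⟩ := mem_V.1 hg
  rw [Fmap_apply, Emap_apply, ← mem_homogeneousSubmodule]
  refine Submodule.add_mem _ (Submodule.add_mem _ (Submodule.smul_mem _ _ ?_) ?_) ?_
  · exact xmap_hom (Nj_mem _ _ _)
  · exact ymap_hom (Dj_mem _ _ _)
  · exact xmap_hom (Dj_mem _ _ _)

lemma V_second {d j : ℕ} (hj : j + 1 ≤ d) {g : MvPolynomial (Fin n) ℂ} (hg : g ∈ V n d (j + 1)) :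
    ∃ h ∈ V n d j, ∀ m, pderiv m (pderiv m g) = pderiv m h := by
  obtain ⟨c, hc, c', hc', rfl⟩ := mem_V.1 hg
  have h0 : d - (j + 1) + 1 = d - j := by omega
  rw [h0] at hc
  refine ⟨Emap d j ((2 : ℂ) • c), E_mem_V (Submodule.smul_mem _ _ hc), fun m => ?_⟩
  rw [Fmap_apply, Emap_apply, Emap_apply, h0, map_smul, map_smul, add_right_comm, ← map_smul,
    ← map_add, pderiv_pderiv]

lemma V_third {d j : ℕ} {g : MvPolynomial (Fin n) ℂ} (hg : g ∈ V n d j) (m : Fin n) :
    pderiv m (pderiv m (pderiv m g)) = 0 := by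
  obtain ⟨c, hc, c', hc', rfl⟩ := mem_V.1 hg
  rw [Fmap_apply, Emap_apply, add_right_comm, ← map_smul, ← map_add, pderiv_pderiv_pderiv]

lemma V_pderiv {d j : ℕ} (hj : j + 1 ≤ d) {g : MvPolynomial (Fin n) ℂ} (hg : g ∈ V n d (j + 1))
    (m : Fin n) : pderiv m g ∈ V n d j := by
  have h : V n d (j + 1) ≤ (V n d j).comap (pderiv m : Derivation ℂ _ _).toLinearMap := by
    refine V_le hj (fun T hT => ?_) (fun S hS => ?_)
    · change pderiv m (fP T (j + 1)) ∈ V n d j
      by_cases hm : m ∈ T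
      · rw [pderiv_fP_mem hm]
        exact Submodule.smul_mem _ _ (eP_mem (by omega))
      · rw [pderiv_fP_notMem hm]
        exact fP_mem (by rw [card_insert_of_notMem hm]; omega)
    · change pderiv m (eP S (j + 1)) ∈ V n d j
      by_cases hm : m ∈ S
      · rw [pderiv_eP_mem hm]
        exact Submodule.zero_mem _
      · rw [pderiv_eP_notMem hm]
        exact eP_mem (by rw [card_insert_of_notMem hm]; omega)
  exact h hg

lemma rename_Fmap (σ : Equiv.Perm (Fin n)) (d j : ℕ) (c : Fn n) :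
    rename σ (Fmap d j c) = Fmap d j (spAct σ c) := by
  rw [Fmap_apply, Fmap_apply, map_add, map_smul, rename_xmap, rename_ymap, spAct_Nj, spAct_Dj]

lemma rename_Emap (σ : Equiv.Perm (Fin n)) (d j : ℕ) (c : Fn n) :
    rename σ (Emap d j c) = Emap d j (spAct σ c) := by
  rw [Emap_apply, Emap_apply, rename_xmap, spAct_Dj]

lemma V_rename {d j : ℕ} (σ : Equiv.Perm (Fin n)) {g : MvPolynomial (Fin n) ℂ}
    (hg : g ∈ V n d j) : rename σ g ∈ V n d j := by
  obtain ⟨c, hc, c', hc', rfl⟩ := mem_V.1 hg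
  rw [map_add, rename_Fmap, rename_Emap]
  exact Submodule.add_mem _ (F_mem_V (spAct_mem σ hc)) (E_mem_V (spAct_mem σ hc'))

/-! ### The case `2j ≤ d` -/

lemma N_rel {j : ℕ} (f : Fn n) {B : Finset (Fin n)} (hB : B.card = j) :
    ∑ b ∈ B, Ds f (B.erase b) = (j : ℂ) * Ds f B + ∑ T with (B ∩ T).card = 1, f T := by
  unfold Ds
  simp only [sum_filter]
  rw [sum_comm, mul_sum, ← sum_add_distrib]
  refine sum_congr rfl fun T _ => ?_
  rw [← sum_filter, sum_const, nsmul_eq_mul]
  by_cases h : Disjoint T B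
  · have h1 : B.filter (fun b => Disjoint T (B.erase b)) = B := by
      rw [filter_eq_self]
      intro b _
      exact disjoint_of_subset_right (erase_subset b B) h
    have h2 : (B ∩ T).card ≠ 1 := by
      rw [disjoint_comm, disjoint_iff_inter_eq_empty] at h
      rw [h]
      simp
    rw [h1, if_pos h, if_neg h2, hB, add_zero]
  · rw [if_neg h, mul_zero, zero_add]
    have h1 : B.filter (fun b => Disjoint T (B.erase b)) =
        if (B ∩ T).card = 1 then B ∩ T else ∅ := by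
      ext b
      rw [mem_filter]
      constructor
      · rintro ⟨hb, h2⟩
        have h3 : B ∩ T = {b} := by
          ext x
          rw [mem_inter, mem_singleton]
          constructor
          · rintro ⟨hx1, hx2⟩
            by_contra hne
            exact disjoint_left.1 h2 hx2 (mem_erase.2 ⟨hne, hx1⟩)
          · rintro rfl
            refine ⟨hb, ?_⟩
            by_contra hx
            apply h
            rw [disjoint_left]
            intro y hy1 hy2
            by_cases hyx : y = x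
            · exact hx (hyx ▸ hy1)
            · exact disjoint_left.1 h2 hy1 (mem_erase.2 ⟨hyx, hy2⟩)
        rw [h3]
        simp
      · split_ifs with h2
        · intro hb
          obtain ⟨a, ha⟩ := card_eq_one.1 h2
          rw [ha, mem_singleton] at hb
          subst hb
          have hb : b ∈ B ∩ T := by rw [ha]; exact mem_singleton_self b
          refine ⟨(mem_inter.1 hb).1, ?_⟩
          rw [disjoint_left]
          intro y hy1 hy2
          rw [mem_erase] at hy2
          have : y ∈ B ∩ T := mem_inter.2 ⟨hy2.2, hy1⟩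
          rw [ha, mem_singleton] at this
          exact hy2.1 this
        · intro hb
          simp at hb
    rw [h1]
    split_ifs with h2
    · rw [h2]
      simp
    · simp

lemma Nj_apply {a : ℕ} (b : ℕ) {c : Fn n} (hc : c ∈ Md n a) (B : Finset (Fin n)) :
    Nj a b c B = if B.card + 1 = b then ∑ T with (B ∩ T).card = 1, c T else 0 := by
  unfold Nj
  rw [Lm_apply]
  refine if_congr Iff.rfl ?_ rfl
  rw [← filter_filter, sum_filter (fun T => (B ∩ T).card = 1),
    sum_filter (fun T => (B ∩ T).card = 1)]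
  rw [sum_filter]
  refine sum_congr rfl fun T _ => ?_
  by_cases hT : T.card + 1 = a
  · rw [if_pos hT]
  · rw [if_neg hT, hc T hT]
    simp

lemma X_le_V {d j : ℕ} (hd : 3 ≤ d) (hn : d ≤ n) (hj : 2 * j ≤ d) {c : Fn n}
    (hc : c ∈ Md n (j + 1)) : xmap c ∈ V n d j := by
  rcases Nat.lt_or_ge (2 * j) d with h | h
  · obtain ⟨c', hc', h1⟩ := Dj_surj (a := j + 1) (b := d - j) (by omega) (by omega) hc
    rw [← h1, ← Emap_apply]
    exact E_mem_V (Dj_mem _ _ _)
  · have hd2 : d = 2 * j := le_antisymm h hj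
    obtain ⟨i, rfl⟩ : ∃ i, j = i + 1 := ⟨j - 1, by omega⟩
    have hdj : d - (i + 1) = i + 1 := by omega
    obtain ⟨c', hc', h1⟩ := Dj_surj (n := n) (a := i + 1) (b := i + 2) (by omega) (by omega)
      (Dj_mem (i + 2) (i + 1) c)
    set f : Fn n := c - Dj (i + 1) (i + 2) c' with hf
    have hfm : f ∈ Md n (i + 2) := Submodule.sub_mem _ hc (Dj_mem _ _ _)
    have hf0 : Dj (i + 2) (i + 1) f = 0 := by rw [hf, map_sub, h1, sub_self]
    have hDs : ∀ B : Finset (Fin n), B.card = i → Ds f B = 0 := by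
      intro B hB
      have := congrFun hf0 B
      rw [Dj_apply _ hfm, if_pos (by omega)] at this
      exact this
    have hN : Nj (i + 2) (i + 2) f = (-((i + 1 : ℕ) : ℂ) * (-1) ^ (i + 1)) • f := by
      funext B
      rw [Nj_apply _ hfm, Pi.smul_apply, smul_eq_mul]
      split_ifs with hB
      · have e1 := N_rel f (j := i + 1) (B := B) (by omega)
        rw [sum_eq_zero (fun b hb => hDs _ (by rw [card_erase_of_mem hb]; omega)),
          Ds_kneser (b := i) (by omega) hfm hDs B (by omega)] at e1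
        linear_combination -e1
      · rw [hfm B hB, mul_zero]
    have hF : Fmap d (i + 1) f = (2 * (-((i + 1 : ℕ) : ℂ) * (-1) ^ (i + 1))) • xmap f := by
      rw [Fmap_apply, hdj, hN, hf0, map_smul, map_zero, add_zero, smul_smul]
    have hne : (2 * (-((i + 1 : ℕ) : ℂ) * (-1) ^ (i + 1))) ≠ 0 := by
      refine mul_ne_zero two_ne_zero (mul_ne_zero (neg_ne_zero.2 ?_) ?_)
      · exact Nat.cast_ne_zero.2 (by omega)
      · exact pow_ne_zero _ (by norm_num)
    have hx : xmap f ∈ V n d (i + 1) := by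
      have h2 : xmap f = (2 * (-((i + 1 : ℕ) : ℂ) * (-1) ^ (i + 1)))⁻¹ • Fmap d (i + 1) f := by
        rw [hF, smul_smul, inv_mul_cancel₀ hne, one_smul]
      rw [h2]
      refine Submodule.smul_mem _ _ (F_mem_V ?_)
      rw [hdj]
      exact hfm
    have hc2 : c = Dj (i + 1) (i + 2) c' + f := by rw [hf]; abel
    rw [hc2, map_add]
    refine Submodule.add_mem _ ?_ hx
    have h3 : xmap (Dj (i + 1) (i + 2) c') = Emap d (i + 1) c' := by
      rw [Emap_apply, hdj]
    rw [h3]
    refine E_mem_V ?_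
    rw [hdj]
    exact hc'

/-- `k^*`. -/
def ks (j k : ℕ) : ℕ := if 2 ≤ j then k else 0

lemma ymap_one {c : Fn n} (hc : c ∈ Md n 1) : ymap c = 0 := by
  rw [ymap_apply]
  refine sum_eq_zero fun B _ => ?_
  by_cases hB : B.card + 1 = 1
  · have : B = ∅ := card_eq_zero.1 (by omega)
    subst this
    unfold ym
    simp
  · rw [hc B hB, zero_smul]

lemma Md_zero {c : Fn n} (hc : c ∈ Md n 0) : c = 0 := by
  funext B
  exact hc B (by omega)

lemma V_small {d j : ℕ} (hd : 3 ≤ d) (hn : d ≤ n) (hj : 2 * j ≤ d)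
    {g : MvPolynomial (Fin n) ℂ} : g ∈ V n d j ↔
      ∃ c ∈ Md n (j + 1), ∃ c' ∈ Md n (ks j j), xmap c + ymap c' = g := by
  constructor
  · intro hg
    obtain ⟨c, hc, c', hc', rfl⟩ := mem_V.1 hg
    rw [Fmap_apply, Emap_apply, add_right_comm, ← map_smul, ← map_add]
    have hx : (2 : ℂ) • Nj (d - j + 1) (j + 1) c + Dj (d - j) (j + 1) c' ∈ Md n (j + 1) :=
      Submodule.add_mem _ (Submodule.smul_mem _ _ (Nj_mem _ _ _)) (Dj_mem _ _ _)
    by_cases h2 : 2 ≤ j
    · refine ⟨_, hx, Dj (d - j + 1) j c, ?_, rfl⟩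
      rw [ks, if_pos h2]
      exact Dj_mem _ _ _
    · refine ⟨_, hx, 0, Submodule.zero_mem _, ?_⟩
      have hy : Dj (d - j + 1) j c ∈ Md n j := Dj_mem _ _ _
      have h3 : ymap (Dj (d - j + 1) j c) = 0 := by
        rcases Nat.eq_zero_or_pos j with rfl | hj0
        · rw [Md_zero hy, map_zero]
        · have hj1 : j = 1 := by omega
          subst hj1
          exact ymap_one hy
      rw [h3, map_zero]
  · rintro ⟨c, hc, c', hc', rfl⟩
    refine Submodule.add_mem _ (X_le_V hd hn hj hc) ?_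
    by_cases h2 : 2 ≤ j
    · rw [ks, if_pos h2] at hc'
      obtain ⟨b, hb, h1⟩ := Dj_surj (n := n) (a := j) (b := d - j + 1) (by omega) (by omega) hc'
      have h3 : Fmap d j (Dj j (d - j + 1) b) ∈ V n d j := F_mem_V (Dj_mem _ _ _)
      rw [Fmap_apply, h1] at h3
      have h4 := Submodule.smul_mem (V n d j) (2 : ℂ)
        (X_le_V hd hn hj (Nj_mem (d - j + 1) (j + 1) (Dj j (d - j + 1) b)))
      exact (Submodule.add_mem_iff_right _ h4).1 h3
    · rw [ks, if_neg h2] at hc'
      rw [Md_zero hc', map_zero]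
      exact Submodule.zero_mem _

/-- The structure of `V_j`. -/
lemma V_equiv {d j : ℕ} (hd : 3 ≤ d) (hn : d ≤ n) (hj : j ≤ d) :
    ∃ E : (Md n (min j (d - j) + 1) × Md n (ks j (min j (d - j)))) ≃ₗ[ℂ] V n d j,
      ∀ (σ : Equiv.Perm (Fin n)) (p p' : Md n (min j (d - j) + 1) × Md n (ks j (min j (d - j)))),
        (p'.1 : Fn n) = spAct σ p.1 → (p'.2 : Fn n) = spAct σ p.2 →
          (E p' : MvPolynomial (Fin n) ℂ) = rename σ (E p : MvPolynomial (Fin n) ℂ) := by
  rcases Nat.lt_or_ge d (2 * j) with h | h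
  · -- `2j > d`
    have hk : min j (d - j) = d - j := min_eq_right (by omega)
    have hks : ks j (d - j) = d - j := by rw [ks, if_pos (by omega)]
    rw [hk, hks]
    let L0 : (Md n (d - j + 1) × Md n (d - j)) →ₗ[ℂ] MvPolynomial (Fin n) ℂ :=
      ((Fmap d j).comp (Submodule.subtype _)).coprod ((Emap d j).comp (Submodule.subtype _))
    have hL0 : ∀ p, L0 p = Fmap d j p.1 + Emap d j p.2 := fun p => rfl
    let L : (Md n (d - j + 1) × Md n (d - j)) →ₗ[ℂ] V n d j :=
      L0.codRestrict _ (fun p => mem_V.2 ⟨_, p.1.2, _, p.2.2, rfl⟩)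
    have hL : ∀ p, (L p : MvPolynomial (Fin n) ℂ) = Fmap d j p.1 + Emap d j p.2 := fun p => rfl
    have hinj : Function.Injective L := by
      rw [injective_iff_map_eq_zero]
      rintro ⟨⟨c, hc⟩, ⟨c', hc'⟩⟩ h0
      have h1 := congrArg Subtype.val h0
      rw [hL] at h1
      change Fmap d j c + Emap d j c' = 0 at h1
      rw [Fmap_apply, Emap_apply, add_right_comm, ← map_smul, ← map_add] at h1
      have h3 : Dj (d - j + 1) j c ∅ = 0 := Dj_mem _ _ _ ∅ (by simp; omega)
      obtain ⟨h4, h5⟩ := xymap_inj h3 h1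
      have h6 : c = 0 := Dj_inj (by omega) (by omega) hc h5
      subst h6
      rw [map_zero, smul_zero, zero_add] at h4
      have h7 : c' = 0 := Dj_inj (by omega) (by omega) hc' h4
      subst h7
      rfl
    have hsurj : Function.Surjective L := by
      rintro ⟨g, hg⟩
      obtain ⟨c, hc, c', hc', h1⟩ := mem_V.1 hg
      exact ⟨⟨⟨c, hc⟩, ⟨c', hc'⟩⟩, Subtype.ext h1⟩
    refine ⟨LinearEquiv.ofBijective L ⟨hinj, hsurj⟩, fun σ p p' h1 h2 => ?_⟩
    rw [LinearEquiv.ofBijective_apply, LinearEquiv.ofBijective_apply, hL, hL, h1, h2, map_add,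
      rename_Fmap, rename_Emap]
  · -- `2j ≤ d`
    have hk : min j (d - j) = j := min_eq_left (by omega)
    rw [hk]
    let L0 : (Md n (j + 1) × Md n (ks j j)) →ₗ[ℂ] MvPolynomial (Fin n) ℂ :=
      (xmap.comp (Submodule.subtype _)).coprod (ymap.comp (Submodule.subtype _))
    have hL0 : ∀ p, L0 p = xmap p.1 + ymap p.2 := fun p => rfl
    let L : (Md n (j + 1) × Md n (ks j j)) →ₗ[ℂ] V n d j :=
      L0.codRestrict _ (fun p => (V_small hd hn h).2 ⟨_, p.1.2, _, p.2.2, rfl⟩)
    have hL : ∀ p, (L p : MvPolynomial (Fin n) ℂ) = xmap p.1 + ymap p.2 := fun p => rfl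
    have hinj : Function.Injective L := by
      rw [injective_iff_map_eq_zero]
      rintro ⟨⟨c, hc⟩, ⟨c', hc'⟩⟩ h0
      have h1 := congrArg Subtype.val h0
      rw [hL] at h1
      change xmap c + ymap c' = 0 at h1
      have h3 : c' ∅ = 0 := hc' ∅ (by
        rw [card_empty, ks]
        split_ifs <;> omega)
      obtain ⟨h4, h5⟩ := xymap_inj h3 h1
      subst h4
      subst h5
      rfl
    have hsurj : Function.Surjective L := by
      rintro ⟨g, hg⟩
      obtain ⟨c, hc, c', hc', h1⟩ := (V_small hd hn h).1 hg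
      exact ⟨⟨⟨c, hc⟩, ⟨c', hc'⟩⟩, Subtype.ext h1⟩
    refine ⟨LinearEquiv.ofBijective L ⟨hinj, hsurj⟩, fun σ p p' h1 h2 => ?_⟩
    rw [LinearEquiv.ofBijective_apply, LinearEquiv.ofBijective_apply, hL, hL, h1, h2, map_add,
      rename_xmap, rename_ymap]

end Pool.Agent.K4H30.PM
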