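import Mathlib
import Pool.Agent.K4H30.PM.Vj

/-! # The multiplicities of the formula -/

namespace Pool.Agent.K4H30.PM

open Finset MvPolynomial

variable {n : ℕ}

lemma mult_eq {d i j : ℕ} (hd : 3 ≤ d) (hj : j ≤ d) (hi : i ≤ d / 2) :
    mult d i j = (if i < min j (d - j) + 1 then 1 else 0) +
      (if i < ks j (min j (d - j)) then 1 else 0) := by
  unfold mult ks
  rcases Nat.le_total j (d - j) with h | h
  · rw [min_eq_left h]
    split_ifs <;> omega
  · rw [min_eq_right h]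
    split_ifs <;> omega

lemma sum_fin_ite (a i : ℕ) :
    (∑ x : Fin a, if (x : ℕ) = i then 1 else 0) = if i < a then 1 else 0 := by
  split_ifs with h
  · rw [sum_eq_single ⟨i, h⟩]
    · simp
    · intro b _ hb
      rw [if_neg]
      intro h2
      exact hb (Fin.ext h2)
    · intro h2
      simp at h2
  · refine sum_eq_zero fun x _ => ?_
    rw [if_neg]
    have := x.2
    omega

lemma kappa_equiv {d j : ℕ} (hd : 3 ≤ d) (hj : j ≤ d) :
    ∃ e : (Σ i : Fin (d / 2 + 1), Fin (mult d i j)) ≃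
        Fin (min j (d - j) + 1) ⊕ Fin (ks j (min j (d - j))),
      ∀ y, ((e.symm y).1 : ℕ) = Sum.elim (fun i : Fin _ => (i : ℕ)) (fun i : Fin _ => (i : ℕ)) y := by
  classical
  have h1 : min j (d - j) + 1 ≤ d / 2 + 1 := by omega
  have h2 : ks j (min j (d - j)) ≤ d / 2 + 1 := by
    unfold ks
    split_ifs <;> omega
  let g : Fin (min j (d - j) + 1) ⊕ Fin (ks j (min j (d - j))) → Fin (d / 2 + 1) :=
    Sum.elim (fun i => Fin.castLE h1 i) (fun i => Fin.castLE h2 i)
  have hg : ∀ y, (g y : ℕ) = Sum.elim (fun i : Fin _ => (i : ℕ)) (fun i : Fin _ => (i : ℕ)) y := by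
    rintro (y | y) <;> rfl
  have hcard : ∀ i : Fin (d / 2 + 1), Fintype.card {y // g y = i} = mult d i j := by
    intro i
    rw [mult_eq hd hj (by omega), Fintype.card_subtype, card_filter, Fintype.sum_sum_type,
      ← sum_fin_ite, ← sum_fin_ite]
    congr 1
    · refine sum_congr rfl fun x _ => if_congr ?_ rfl rfl
      rw [Fin.ext_iff, hg]
      rfl
    · refine sum_congr rfl fun x _ => if_congr ?_ rfl rfl
      rw [Fin.ext_iff, hg]
      rfl
  let e' : (Σ i : Fin (d / 2 + 1), Fin (mult d i j)) ≃ Σ i : Fin (d / 2 + 1), {y // g y = i} :=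
    Equiv.sigmaCongrRight (fun i => (Fintype.equivFinOfCardEq (hcard i)).symm)
  refine ⟨e'.trans (Equiv.sigmaFiberEquiv g), fun y => ?_⟩
  rw [← hg]
  rfl

/-- `V_j` is a sum of Specht modules with the multiplicities of the formula. -/
lemma gamma {d j : ℕ} (hd : 3 ≤ d) (hn : d ≤ n) (hj : j ≤ d) :
    ∃ E : ((x : Σ i : Fin (d / 2 + 1), Fin (mult d i j)) → Specht n x.1) ≃ₗ[ℂ] V n d j,
      ∀ (σ : Equiv.Perm (Fin n))
        (φ φ' : (x : Σ i : Fin (d / 2 + 1), Fin (mult d i j)) → Specht n x.1),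
        (∀ x, (φ' x : Fn n) = spAct σ (φ x)) →
          (E φ' : MvPolynomial (Fin n) ℂ) = rename σ (E φ : MvPolynomial (Fin n) ℂ) := by
  obtain ⟨e, he⟩ := kappa_equiv hd hj
  obtain ⟨E1, h1⟩ := young2 (n := n)
    (fun x : (Σ i : Fin (d / 2 + 1), Fin (mult d i j)) => ((x.1 : Fin (d / 2 + 1)) : ℕ))
    (min j (d - j) + 1) (ks j (min j (d - j))) (by omega) (by
      unfold ks
      split_ifs <;> omega) e he
  obtain ⟨E2, h2⟩ := V_equiv (n := n) hd hn hj
  refine ⟨E1.trans E2, fun σ φ φ' h => ?_⟩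
  rw [LinearEquiv.trans_apply, LinearEquiv.trans_apply]
  obtain ⟨h3, h4⟩ := h1 σ φ φ' h
  exact h2 σ _ _ h3 h4

end Pool.Agent.K4H30.PM
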