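import Mathlib
import Pool.Agent.K4H30.PM.Vj

/-! # The polarization module is generated from `V` by the first polarization operators -/

namespace Pool.Agent.K4H30.PM

open Finset MvPolynomial

variable {ℓ n : ℕ}

/-! ### Partial derivatives commute -/

lemma pderiv_comm {τ : Type*} (a b : τ) (f : MvPolynomial τ ℂ) :
    pderiv a (pderiv b f) = pderiv b (pderiv a f) := by
  classical
  induction f using MvPolynomial.induction_on with
  | C r => simp
  | add p q hp hq => rw [map_add, map_add, map_add, map_add, hp, hq]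
  | mul_X p i hp =>
    simp only [pderiv_mul, map_add, hp, pderiv_X, Pi.single_apply]
    split_ifs <;> simp <;> ring

/-! ### The operators -/

/-- `E^{(1)}_{i,k}` as a linear map. -/
noncomputable def E1 (i k : Fin ℓ) : P ℓ n →ₗ[ℂ] P ℓ n :=
  ∑ m : Fin n, (LinearMap.mulLeft ℂ (X (i, m))).comp (pderiv (k, m) : Derivation ℂ _ _).toLinearMap

/-- `∑_m x_{pm} ∂_{qm} ∂_{rm}` as a linear map. -/
noncomputable def E2 (p q r : Fin ℓ) : P ℓ n →ₗ[ℂ] P ℓ n :=
  ∑ m : Fin n, (LinearMap.mulLeft ℂ (X (p, m))).comp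
    ((pderiv (q, m) : Derivation ℂ _ _).toLinearMap.comp
      (pderiv (r, m) : Derivation ℂ _ _).toLinearMap)

lemma E1_apply (i k : Fin ℓ) (h : P ℓ n) : E1 i k h = ∑ m, X (i, m) * pderiv (k, m) h := by
  unfold E1
  rw [LinearMap.sum_apply]
  rfl

lemma E2_apply (p q r : Fin ℓ) (h : P ℓ n) :
    E2 p q r h = ∑ m, X (p, m) * pderiv (q, m) (pderiv (r, m) h) := by
  unfold E2
  rw [LinearMap.sum_apply]
  rfl

lemma pderiv_E1 (p : Fin ℓ) (j : Fin n) (i k : Fin ℓ) (h : P ℓ n) :
    pderiv (p, j) (E1 i k h) = E1 i k (pderiv (p, j) h) + if p = i then pderiv (k, j) h else 0 := by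
  rw [E1_apply, E1_apply, map_sum]
  have h1 : ∀ m : Fin n, pderiv (p, j) (X (i, m) * pderiv (k, m) h) =
      X (i, m) * pderiv (k, m) (pderiv (p, j) h) +
        if m = j then (if p = i then pderiv (k, j) h else 0) else 0 := by
    intro m
    rw [pderiv_mul, pderiv_X, pderiv_comm (p, j) (k, m), add_comm]
    congr 1
    simp only [Pi.single_apply, Prod.mk.injEq]
    by_cases hm : m = j
    · subst hm
      by_cases hp : p = i
      · subst hp
        simp
      · simp [hp, Ne.symm hp]
    · simp [hm]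
  rw [sum_congr rfl fun m _ => h1 m, sum_add_distrib, sum_ite_eq' univ j]
  simp

lemma E1_X_mul (i k p : Fin ℓ) (m : Fin n) (u : P ℓ n) :
    E1 i k (X (p, m) * u) = X (p, m) * E1 i k u + if k = p then X (i, m) * u else 0 := by
  rw [E1_apply, E1_apply]
  have h1 : ∀ m' : Fin n, X (i, m') * pderiv (k, m') (X (p, m) * u) =
      X (p, m) * (X (i, m') * pderiv (k, m') u) +
        if m' = m then (if k = p then X (i, m) * u else 0) else 0 := by
    intro m'
    rw [pderiv_mul, pderiv_X]
    simp only [Pi.single_apply, Prod.mk.injEq]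
    by_cases hm : m' = m
    · subst hm
      by_cases hp : k = p
      · subst hp
        simp
        ring
      · simp [hp, Ne.symm hp]
        ring
    · simp [hm, Ne.symm hm]
      ring
  rw [sum_congr rfl fun m _ => h1 m, sum_add_distrib, ← mul_sum, sum_ite_eq' univ m]
  simp

lemma E2_E1 (p q r i k : Fin ℓ) (h : P ℓ n) :
    E2 p q r (E1 i k h) = E1 i k (E2 p q r h) - (if k = p then E2 i q r h else 0) +
      (if q = i then E2 p k r h else 0) + (if r = i then E2 p q k h else 0) := by
  have h1 : ∀ m : Fin n, X (p, m) * pderiv (q, m) (pderiv (r, m) (E1 i k h)) =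
      E1 i k (X (p, m) * pderiv (q, m) (pderiv (r, m) h)) -
        (if k = p then X (i, m) * pderiv (q, m) (pderiv (r, m) h) else 0) +
        (if q = i then X (p, m) * pderiv (k, m) (pderiv (r, m) h) else 0) +
        (if r = i then X (p, m) * pderiv (q, m) (pderiv (k, m) h) else 0) := by
    intro m
    rw [pderiv_E1, map_add, pderiv_E1, E1_X_mul]
    have h2 : pderiv (q, m) (if r = i then pderiv (k, m) h else 0) =
        if r = i then pderiv (q, m) (pderiv (k, m) h) else 0 := by
      split_ifs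
      · rfl
      · rw [map_zero]
    rw [h2]
    split_ifs <;> ring
  rw [E2_apply, sum_congr rfl fun m _ => h1 m, sum_add_distrib, sum_add_distrib, sum_sub_distrib,
    ← map_sum, ← E2_apply]
  congr 1
  · congr 1
    · congr 1
      split_ifs
      · rw [E2_apply]
      · simp
    · split_ifs
      · rw [E2_apply]
      · simp
  · split_ifs
    · rw [E2_apply]
    · simp

/-! ### Polynomials in the first row -/

variable [NeZero ℓ]

lemma row_inj : Function.Injective (fun j : Fin n => ((0 : Fin ℓ), j)) := fun a b h => by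
  simpa using h

lemma pderiv_row_zero (j : Fin n) (g : MvPolynomial (Fin n) ℂ) :
    pderiv ((0 : Fin ℓ), j) (row ℓ g) = row ℓ (pderiv j g) :=
  pderiv_rename row_inj j g

lemma pderiv_row_ne {i : Fin ℓ} (hi : i ≠ 0) (j : Fin n) (g : MvPolynomial (Fin n) ℂ) :
    pderiv (i, j) (row ℓ g) = 0 := by
  unfold row
  induction g using MvPolynomial.induction_on with
  | C r => simp
  | add p q hp hq => rw [map_add, map_add, hp, hq, add_zero]
  | mul_X p k hp =>
    rw [map_mul, rename_X, pderiv_mul, hp, pderiv_X_of_ne (by simp [Ne.symm hi])]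
    simp

lemma pderiv_row (i : Fin ℓ) (j : Fin n) (g : MvPolynomial (Fin n) ℂ) :
    pderiv (i, j) (row ℓ g) = if i = 0 then row ℓ (pderiv j g) else 0 := by
  split_ifs with h
  · subst h
    exact pderiv_row_zero j g
  · exact pderiv_row_ne h j g

/-! ### The space `N` -/

/-- The words in the operators `E^{(1)}` applied to elements of `V`. -/
inductive Gen (d : ℕ) : P ℓ n → Prop
  | base (j : ℕ) (hj : j ≤ d) (g : MvPolynomial (Fin n) ℂ) (hg : g ∈ V n d j) : Gen d (row ℓ g)
  | step (i k : Fin ℓ) (h : P ℓ n) (hh : Gen d h) : Gen d (E1 i k h)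

/-- The span of these words. -/
noncomputable def N (ℓ n : ℕ) [NeZero ℓ] (d : ℕ) : Submodule ℂ (P ℓ n) :=
  Submodule.span ℂ {h | Gen d h}

lemma N_E1 {d : ℕ} (i k : Fin ℓ) {h : P ℓ n} (hh : h ∈ N ℓ n d) : E1 i k h ∈ N ℓ n d := by
  have : N ℓ n d ≤ (N ℓ n d).comap (E1 i k) :=
    Submodule.span_le.2 fun x hx => Submodule.subset_span (Gen.step i k x hx)
  exact this hh

lemma Gen_pderiv {d : ℕ} {h : P ℓ n} (hh : Gen d h) :
    ∀ a : Fin ℓ × Fin n, pderiv a h ∈ N ℓ n d := by
  induction hh with
  | base j hj g hg =>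
    rintro ⟨i, m⟩
    rw [pderiv_row]
    split_ifs
    · rcases j with _ | j
      · have h0 := V_hom hg
        have hC := totalDegree_eq_zero_iff_eq_C.1 ((totalDegree_zero_iff_isHomogeneous _).2 h0)
        rw [hC, pderiv_C]
        unfold row
        rw [map_zero]
        exact Submodule.zero_mem _
      · exact Submodule.subset_span (Gen.base j (by omega) _ (V_pderiv hj hg m))
    · exact Submodule.zero_mem _
  | step i k h _ ih =>
    rintro ⟨p, m⟩
    rw [pderiv_E1]
    refine Submodule.add_mem _ (N_E1 i k (ih _)) ?_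
    split_ifs
    · exact ih _
    · exact Submodule.zero_mem _

lemma N_pderiv {d : ℕ} {h : P ℓ n} (hh : h ∈ N ℓ n d) (a : Fin ℓ × Fin n) :
    pderiv a h ∈ N ℓ n d := by
  have : N ℓ n d ≤ (N ℓ n d).comap (pderiv a : Derivation ℂ _ _).toLinearMap :=
    Submodule.span_le.2 fun x hx => Gen_pderiv hx a
  exact this hh

lemma Gen_E2 {d : ℕ} {h : P ℓ n} (hh : Gen d h) :
    ∀ p q r : Fin ℓ, E2 p q r h ∈ N ℓ n d := by
  induction hh with
  | base j hj g hg =>
    intro p q r
    rcases j with _ | j
    · have h0 := V_hom hg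
      have hC := totalDegree_eq_zero_iff_eq_C.1 ((totalDegree_zero_iff_isHomogeneous _).2 h0)
      rw [E2_apply]
      refine Submodule.sum_mem _ fun m _ => ?_
      rw [hC]
      unfold row
      rw [rename_C, pderiv_C, map_zero, mul_zero]
      exact Submodule.zero_mem _
    · obtain ⟨h', hh', h2⟩ := V_second hj hg
      have key : E2 p q r (row ℓ g) = if r = 0 ∧ q = 0 then E1 p 0 (row ℓ h') else 0 := by
        rw [E2_apply]
        split_ifs with hrq
        · obtain ⟨rfl, rfl⟩ := hrq
          rw [E1_apply]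
          refine sum_congr rfl fun m _ => ?_
          rw [pderiv_row_zero, pderiv_row_zero, pderiv_row_zero, h2]
        · refine sum_eq_zero fun m _ => ?_
          rw [pderiv_row]
          by_cases hr : r = 0
          · rw [if_pos hr, pderiv_row, if_neg (fun hq => hrq ⟨hr, hq⟩), mul_zero]
          · rw [if_neg hr, map_zero, mul_zero]
      rw [key]
      split_ifs
      · exact N_E1 _ _ (Submodule.subset_span (Gen.base j (by omega) _ hh'))
      · exact Submodule.zero_mem _
  | step i k h _ ih =>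
    intro p q r
    rw [E2_E1]
    refine Submodule.add_mem _ (Submodule.add_mem _ (Submodule.sub_mem _ (N_E1 i k (ih _ _ _)) ?_)
      ?_) ?_
    · split_ifs
      · exact ih _ _ _
      · exact Submodule.zero_mem _
    · split_ifs
      · exact ih _ _ _
      · exact Submodule.zero_mem _
    · split_ifs
      · exact ih _ _ _
      · exact Submodule.zero_mem _

lemma N_E2 {d : ℕ} (p q r : Fin ℓ) {h : P ℓ n} (hh : h ∈ N ℓ n d) : E2 p q r h ∈ N ℓ n d := by
  have : N ℓ n d ≤ (N ℓ n d).comap (E2 p q r) :=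
    Submodule.span_le.2 fun x hx => Gen_E2 hx p q r
  exact this hh

lemma Gen_third {d : ℕ} {h : P ℓ n} (hh : Gen d h) :
    ∀ (a b c : Fin ℓ) (j : Fin n), pderiv (a, j) (pderiv (b, j) (pderiv (c, j) h)) = 0 := by
  induction hh with
  | base j hj g hg =>
    intro a b c m
    rw [pderiv_row]
    split_ifs
    · rw [pderiv_row]
      split_ifs
      · rw [pderiv_row, V_third hg]
        split_ifs
        · unfold row
          rw [map_zero]
        · rfl
      · rw [map_zero]
    · rw [map_zero, map_zero]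
  | step i k h _ ih =>
    intro a b c m
    rw [pderiv_E1, map_add, pderiv_E1, map_add, map_add, pderiv_E1, ih, map_zero]
    split_ifs <;> simp [ih]

lemma N_third {d : ℕ} {h : P ℓ n} (hh : h ∈ N ℓ n d) (a b c : Fin ℓ) (j : Fin n) :
    pderiv (a, j) (pderiv (b, j) (pderiv (c, j) h)) = 0 := by
  induction hh using Submodule.span_induction with
  | mem x hx => exact Gen_third hx a b c j
  | zero => simp
  | add x y _ _ hx hy => rw [map_add, map_add, map_add, hx, hy, add_zero]
  | smul r x _ hx => rw [Derivation.map_smul, Derivation.map_smul, Derivation.map_smul, hx,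
      smul_zero]

/-- The polynomials killed by all the `2 × 2` minors of the matrix of partial derivatives. -/
def Kp (ℓ n : ℕ) : Submodule ℂ (P ℓ n) where
  carrier := {h | ∀ (i k : Fin ℓ) (j l : Fin n),
    pderiv (i, j) (pderiv (k, l) h) = pderiv (k, j) (pderiv (i, l) h)}
  zero_mem' := fun i k j l => by simp
  add_mem' := fun {x y} hx hy i k j l => by
    rw [map_add, map_add, map_add, map_add, hx, hy]
  smul_mem' := fun r x hx i k j l => by
    rw [Derivation.map_smul, Derivation.map_smul, Derivation.map_smul, Derivation.map_smul, hx]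

omit [NeZero ℓ] in
lemma mem_Kp {h : P ℓ n} : h ∈ Kp ℓ n ↔ ∀ (i k : Fin ℓ) (j l : Fin n),
    pderiv (i, j) (pderiv (k, l) h) = pderiv (k, j) (pderiv (i, l) h) := Iff.rfl

omit [NeZero ℓ] in
lemma Kp_pderiv {h : P ℓ n} (hh : h ∈ Kp ℓ n) (a : Fin ℓ × Fin n) : pderiv a h ∈ Kp ℓ n := by
  intro i k j l
  rw [pderiv_comm (k, l) a, pderiv_comm (i, j) a, hh i k j l, pderiv_comm (i, l) a,
    pderiv_comm (k, j) a]

omit [NeZero ℓ] in
lemma Kp_E1 {h : P ℓ n} (hh : h ∈ Kp ℓ n) (p q : Fin ℓ) : E1 p q h ∈ Kp ℓ n := by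
  intro i k j l
  rw [pderiv_E1, pderiv_E1, map_add, map_add, pderiv_E1, pderiv_E1, hh i k j l]
  have e1 : pderiv (i, j) (if k = p then pderiv (q, l) h else 0) =
      if k = p then pderiv (q, j) (pderiv (i, l) h) else 0 := by
    split_ifs
    · exact hh i q j l
    · rw [map_zero]
  have e2 : pderiv (k, j) (if i = p then pderiv (q, l) h else 0) =
      if i = p then pderiv (q, j) (pderiv (k, l) h) else 0 := by
    split_ifs
    · exact hh k q j l
    · rw [map_zero]
  rw [e1, e2]
  ring

lemma N_le_Kp {d : ℕ} : N ℓ n d ≤ Kp ℓ n := by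
  refine Submodule.span_le.2 fun x hx => ?_
  change x ∈ Kp ℓ n
  induction hx with
  | base j hj g hg =>
    intro i k m l
    by_cases h1 : k = 0
    · subst h1
      by_cases h2 : i = 0
      · subst h2
        rfl
      · rw [pderiv_row_zero, pderiv_row_ne h2, pderiv_row_ne h2, map_zero]
    · by_cases h2 : i = 0
      · subst h2
        rw [pderiv_row_zero, pderiv_row_ne h1, pderiv_row_ne h1, map_zero]
      · rw [pderiv_row_ne h1, pderiv_row_ne h2, map_zero, map_zero]
  | step i k h _ ih => exact Kp_E1 ih i k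

/-! ### `M_f = N` -/

omit [NeZero ℓ] in
lemma E_one (i k : Fin ℓ) (h : P ℓ n) : E 1 i k h = E1 i k h := by
  rw [E1_apply]
  rfl

omit [NeZero ℓ] in
lemma E_two (i k : Fin ℓ) (h : P ℓ n) : E 2 i k h = E2 i k k h := by
  rw [E2_apply]
  rfl

lemma E_three {d : ℕ} {h : P ℓ n} (hh : h ∈ N ℓ n d) (p : ℕ) (i k : Fin ℓ) :
    E (p + 3) i k h = 0 := by
  unfold E
  refine sum_eq_zero fun j _ => ?_
  rw [Function.iterate_add_apply]
  have h3 : (pderiv (k, j))^[3] h = 0 := N_third hh k k k j
  rw [h3]
  have h4 : (pderiv (k, j) : Derivation ℂ (P ℓ n) (P ℓ n))^[p] (0 : P ℓ n) = 0 := by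
    induction p with
    | zero => rfl
    | succ p ih => rw [Function.iterate_succ_apply, map_zero, ih]
  rw [h4, mul_zero]

lemma sAct_row (σ : Equiv.Perm (Fin n)) (g : MvPolynomial (Fin n) ℂ) :
    sAct σ (row ℓ g) = row ℓ (rename σ g) := by
  unfold sAct row
  rw [rename_rename, rename_rename]
  rfl

lemma N_closed {d : ℕ} (hd : 3 ≤ d) : Closed (row ℓ (m21 n d)) (N ℓ n d) := by
  refine ⟨fun σ => ?_, fun a g hg => N_pderiv hg a, fun p hp i k g hg => ?_⟩
  · rw [sAct_row, m21_eq (by omega)]
    exact Submodule.subset_span (Gen.base d le_rfl _ (V_rename σ (fP_mem (by simp))))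
  · rcases Nat.lt_or_ge p 3 with h3 | h3
    · have : p = 1 ∨ p = 2 := by omega
      rcases this with rfl | rfl
      · rw [E_one]
        exact N_E1 i k hg
      · rw [E_two]
        exact N_E2 i k k hg
    · obtain ⟨p, rfl⟩ := Nat.exists_eq_add_of_le' h3
      rw [E_three hg]
      exact Submodule.zero_mem _

omit [NeZero ℓ] in
lemma polMod_closed (f : P ℓ n) : Closed f (polMod f) := by
  refine ⟨fun σ => ?_, fun a g hg => ?_, fun p hp i k g hg => ?_⟩
  · rw [polMod, Submodule.mem_sInf]
    intro W hW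
    exact hW.orbit σ
  · rw [polMod, Submodule.mem_sInf] at hg ⊢
    intro W hW
    exact hW.deriv a g (hg W hW)
  · rw [polMod, Submodule.mem_sInf] at hg ⊢
    intro W hW
    exact hW.polar p hp i k g (hg W hW)

lemma row_smul (r : ℂ) (g : MvPolynomial (Fin n) ℂ) : row ℓ (r • g) = r • row ℓ g := by
  unfold row
  rw [map_smul]

lemma row_fP_mem {d : ℕ} (hd : 3 ≤ d) (T : Finset (Fin n)) :
    ∀ j, T.card + j = d → row ℓ (fP T j) ∈ polMod (row ℓ (m21 n d)) := by
  have hc := polMod_closed (row ℓ (m21 n d))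
  induction T using Finset.induction_on with
  | empty =>
    intro j hj
    have hj' : j = d := by simpa using hj
    subst hj'
    have := hc.orbit 1
    rw [sAct_row] at this
    rw [← m21_eq (by omega)]
    have h1 : rename (1 : Equiv.Perm (Fin n)) (m21 n j) = m21 n j := by
      have : ((1 : Equiv.Perm (Fin n)) : Fin n → Fin n) = id := rfl
      rw [this, rename_id_apply]
    rwa [h1] at this
  | insert m T hm ih =>
    intro j hj
    rw [card_insert_of_notMem hm] at hj
    have h1 := hc.deriv (0, m) _ (ih (j + 1) (by omega))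
    rw [pderiv_row_zero, pderiv_fP_notMem hm] at h1
    exact h1

lemma row_eP_mem {d : ℕ} (hd : 3 ≤ d) (S : Finset (Fin n)) :
    ∀ j, S.card + 1 + j = d → row ℓ (eP S j) ∈ polMod (row ℓ (m21 n d)) := by
  have hc := polMod_closed (row ℓ (m21 n d))
  induction S using Finset.induction_on with
  | empty =>
    intro j hj
    rw [card_empty, zero_add] at hj
    obtain ⟨j, rfl⟩ : ∃ i, j = i + 1 := ⟨j - 1, by omega⟩
    have h1 := hc.polar 2 (by norm_num) 0 0 _ (row_fP_mem (ℓ := ℓ) (n := n) hd ∅ d (by simp))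
    rw [E_two, E2_apply] at h1
    have h2 : ∀ m : Fin n, pderiv ((0 : Fin ℓ), m) (pderiv ((0 : Fin ℓ), m) (row ℓ (fP ∅ d))) =
        (2 : ℂ) • row ℓ (pderiv m (eP ∅ (j + 1))) := by
      intro m
      rw [pderiv_row_zero, pderiv_row_zero, ← hj]
      have e1 : (1 + (j + 1) : ℕ) = (j + 1) + 1 := by ring
      rw [e1, pderiv_fP_notMem (notMem_empty m), pderiv_fP_mem (mem_insert_self m ∅),
        pderiv_eP_notMem (notMem_empty m), row_smul]
    rw [sum_congr rfl fun m _ => by rw [h2 m]] at h1
    have h3 : ∑ m : Fin n, X ((0 : Fin ℓ), m) * (2 : ℂ) • row ℓ (pderiv m (eP ∅ (j + 1))) =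
        (2 * ((j + 1 : ℕ) : ℂ)) • row ℓ (eP ∅ (j + 1)) := by
      have h4 := (V_hom (n := n) (eP_mem (d := d) (S := ∅) (j := j + 1)
        (by simpa using hj))).sum_X_mul_pderiv
      have h5 : row ℓ (∑ m : Fin n, X m * pderiv m (eP ∅ (j + 1))) =
          ∑ m : Fin n, X ((0 : Fin ℓ), m) * row ℓ (pderiv m (eP ∅ (j + 1))) := by
        unfold row
        rw [map_sum]
        refine sum_congr rfl fun m _ => ?_
        rw [map_mul, rename_X]
      rw [h4] at h5
      simp only [mul_smul_comm]
      rw [← smul_sum, ← h5, ← Nat.cast_smul_eq_nsmul ℂ, row_smul, smul_smul]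
    rw [h3] at h1
    have h6 : (2 * ((j + 1 : ℕ) : ℂ)) ≠ 0 :=
      mul_ne_zero two_ne_zero (Nat.cast_ne_zero.2 (by omega))
    have h7 := Submodule.smul_mem _ (2 * ((j + 1 : ℕ) : ℂ))⁻¹ h1
    rwa [smul_smul, inv_mul_cancel₀ h6, one_smul] at h7
  | insert m S hm ih =>
    intro j hj
    rw [card_insert_of_notMem hm] at hj
    have h1 := hc.deriv (0, m) _ (ih (j + 1) (by omega))
    rw [pderiv_row_zero, pderiv_eP_notMem hm] at h1
    exact h1

/-- `M_f` is spanned by the words in the operators `E^{(1)}` applied to `V`. -/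
lemma polMod_eq {d : ℕ} (hd : 3 ≤ d) : polMod (row ℓ (m21 n d)) = N ℓ n d := by
  have hc := polMod_closed (row ℓ (m21 n d))
  refine le_antisymm (sInf_le (N_closed hd)) (Submodule.span_le.2 fun x hx => ?_)
  change x ∈ polMod (row ℓ (m21 n d))
  induction hx with
  | base j hj g hg =>
    have : V n d j ≤ (polMod (row ℓ (m21 n d))).comap
        (rename (fun j => ((0 : Fin ℓ), j)) : MvPolynomial (Fin n) ℂ →ₐ[ℂ] P ℓ n).toLinearMap :=
      V_le hj (fun T hT => row_fP_mem hd T j hT) (fun S hS => row_eP_mem hd S j hS)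
    exact this hg
  | step i k h _ ih =>
    rw [← E_one]
    exact hc.polar 1 le_rfl i k _ ih

end Pool.Agent.K4H30.PM
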