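import Mathlib
import Pool.Agent.K4H30.PM.Mod

/-! # The restitution map `x_{ij} ↦ y_i x_j` -/

namespace Pool.Agent.K4H30.PM

open Finset MvPolynomial

open scoped TensorProduct

variable {ℓ n : ℕ}

/-- The polynomial ring in `y_1,…,y_ℓ,x_1,…,x_n`. -/
abbrev R (ℓ n : ℕ) := MvPolynomial (Fin ℓ ⊕ Fin n) ℂ

/-- Restitution: `x_{ij} ↦ y_i x_j`. -/
noncomputable def rho : P ℓ n →ₐ[ℂ] R ℓ n := aeval (fun a => X (Sum.inl a.1) * X (Sum.inr a.2))

lemma chain {σ τ : Type*} [Fintype σ] (f : σ → MvPolynomial τ ℂ) (t : τ) (h : MvPolynomial σ ℂ) :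
    pderiv t (aeval f h) = ∑ s, pderiv t (f s) * aeval f (pderiv s h) := by
  classical
  induction h using MvPolynomial.induction_on with
  | C r =>
    rw [aeval_C, algebraMap_eq, pderiv_C]
    symm
    refine sum_eq_zero fun s _ => ?_
    rw [pderiv_C, map_zero, mul_zero]
  | add p q hp hq =>
    rw [map_add, map_add, hp, hq, ← sum_add_distrib]
    refine sum_congr rfl fun s _ => ?_
    rw [map_add, map_add, mul_add]
  | mul_X p i hp =>
    rw [map_mul, aeval_X, pderiv_mul, hp, sum_mul]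
    have h1 : ∀ s, pderiv t (f s) * aeval f (pderiv s (p * X i)) =
        pderiv t (f s) * aeval f (pderiv s p) * f i +
          if s = i then aeval f p * pderiv t (f i) else 0 := by
      intro s
      rw [pderiv_mul, map_add, map_mul, map_mul, aeval_X, pderiv_X]
      by_cases hs : s = i
      · subst hs
        simp
        ring
      · simp [hs]
        ring
    rw [sum_congr rfl fun s _ => h1 s, sum_add_distrib, sum_ite_eq' univ i]
    simp

lemma pderiv_rho_inl (k : Fin ℓ) (h : P ℓ n) :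
    pderiv (Sum.inl k) (rho h) = ∑ m : Fin n, X (Sum.inr m) * rho (pderiv (k, m) h) := by
  unfold rho
  rw [chain, Fintype.sum_prod_type, sum_eq_single k]
  · refine sum_congr rfl fun m _ => ?_
    rw [pderiv_mul, pderiv_X_self, pderiv_X_of_ne (by simp)]
    simp
  · intro i _ hi
    refine sum_eq_zero fun m _ => ?_
    rw [pderiv_mul, pderiv_X_of_ne (by simp [hi]), pderiv_X_of_ne (by simp)]
    simp
  · intro h
    simp at h

lemma pderiv_rho_inr (j : Fin n) (h : P ℓ n) :
    pderiv (Sum.inr j) (rho h) = ∑ i : Fin ℓ, X (Sum.inl i) * rho (pderiv (i, j) h) := by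
  unfold rho
  rw [chain, Fintype.sum_prod_type_right, sum_eq_single j]
  · refine sum_congr rfl fun m _ => ?_
    rw [pderiv_mul, pderiv_X_self, pderiv_X_of_ne (by simp)]
    simp
  · intro i _ hi
    refine sum_eq_zero fun m _ => ?_
    rw [pderiv_mul, pderiv_X_of_ne (by simp), pderiv_X_of_ne (by simp [hi])]
    simp
  · intro h
    simp at h

lemma rho_E1 (i k : Fin ℓ) (h : P ℓ n) :
    rho (E1 i k h) = X (Sum.inl i) * pderiv (Sum.inl k) (rho h) := by
  rw [E1_apply, pderiv_rho_inl, map_sum, mul_sum]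
  refine sum_congr rfl fun m _ => ?_
  rw [map_mul]
  have : rho (X (i, m) : P ℓ n) = X (Sum.inl i) * X (Sum.inr m) := by
    unfold rho
    rw [aeval_X]
  rw [this]
  ring

/-! ### Euler -/

lemma euler_coeff {τ : Type*} [Fintype τ] (u : MvPolynomial τ ℂ) (m : τ →₀ ℕ) :
    coeff m (∑ a, X a * pderiv a u) = ((∑ a, m a : ℕ) : ℂ) * coeff m u := by
  classical
  induction u using MvPolynomial.induction_on' with
  | monomial s r =>
    simp only [X_mul_pderiv_monomial]
    rw [← sum_smul, coeff_smul, coeff_monomial]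
    split_ifs with h
    · rw [h, nsmul_eq_mul]
    · simp
  | add p q hp hq =>
    have : ∑ a, X a * pderiv a (p + q) = (∑ a, X a * pderiv a p) + ∑ a, X a * pderiv a q := by
      rw [← sum_add_distrib]
      refine sum_congr rfl fun a _ => ?_
      rw [map_add, mul_add]
    rw [this, coeff_add, hp, hq, coeff_add]
    ring

lemma one_add_euler {τ : Type*} [Fintype τ] (u : MvPolynomial τ ℂ)
    (h : u + ∑ a, X a * pderiv a u = 0) : u = 0 := by
  ext m
  have h1 := congrArg (coeff m) h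
  rw [coeff_add, euler_coeff, coeff_zero] at h1
  have h2 : (1 + ((∑ a, m a : ℕ) : ℂ)) * coeff m u = 0 := by linear_combination h1
  have h3 : (1 + ((∑ a, m a : ℕ) : ℂ)) ≠ 0 := by
    have : ((1 + ∑ a, m a : ℕ) : ℂ) ≠ 0 := Nat.cast_ne_zero.2 (by omega)
    push_cast at this ⊢
    exact this
  rw [coeff_zero]
  exact (mul_eq_zero.1 h2).resolve_left h3

lemma eq_C_of_pderiv {τ : Type*} [Fintype τ] (u : MvPolynomial τ ℂ)
    (h : ∀ a, pderiv a u = 0) : u = C (coeff 0 u) := by
  classical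
  ext m
  rw [coeff_C]
  split_ifs with hm
  · rw [hm]
  · have h1 := euler_coeff u m
    rw [sum_eq_zero (fun a _ => by rw [h a, mul_zero]), coeff_zero] at h1
    have h3 : ((∑ a, m a : ℕ) : ℂ) ≠ 0 := by
      rw [Nat.cast_ne_zero]
      intro h4
      apply hm
      ext a
      have := (sum_eq_zero_iff.1 h4) a (mem_univ a)
      rw [this]
      rfl
    exact (mul_eq_zero.1 h1.symm).resolve_left h3

/-! ### Nilpotency filtration -/

/-- Polynomials killed by all products of `t` partial derivatives. -/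
noncomputable def Nil (ℓ n : ℕ) : ℕ → Submodule ℂ (P ℓ n)
  | 0 => ⊥
  | t + 1 => ⨅ a : Fin ℓ × Fin n, (Nil ℓ n t).comap (pderiv a : Derivation ℂ _ _).toLinearMap

lemma mem_Nil_zero {h : P ℓ n} : h ∈ Nil ℓ n 0 ↔ h = 0 := by
  rw [Nil, Submodule.mem_bot]

lemma mem_Nil_succ {t : ℕ} {h : P ℓ n} :
    h ∈ Nil ℓ n (t + 1) ↔ ∀ a : Fin ℓ × Fin n, pderiv a h ∈ Nil ℓ n t := by
  rw [Nil, Submodule.mem_iInf]
  rfl

lemma Nil_succ {t : ℕ} : ∀ {h : P ℓ n}, h ∈ Nil ℓ n t → h ∈ Nil ℓ n (t + 1) := by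
  induction t with
  | zero =>
    intro h hh
    rw [mem_Nil_zero] at hh
    rw [hh]
    exact Submodule.zero_mem _
  | succ t ih =>
    intro h hh
    rw [mem_Nil_succ] at hh ⊢
    exact fun a => ih (hh a)

lemma Nil_mono {s t : ℕ} (hst : s ≤ t) {h : P ℓ n} (hh : h ∈ Nil ℓ n s) : h ∈ Nil ℓ n t := by
  obtain ⟨k, rfl⟩ := Nat.exists_eq_add_of_le hst
  induction k with
  | zero => exact hh
  | succ k ih => exact Nil_succ (ih (by omega))

lemma Nil_E1 {t : ℕ} (i k : Fin ℓ) : ∀ {h : P ℓ n}, h ∈ Nil ℓ n t → E1 i k h ∈ Nil ℓ n t := by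
  induction t with
  | zero =>
    intro h hh
    rw [mem_Nil_zero] at hh
    rw [hh, map_zero]
    exact Submodule.zero_mem _
  | succ t ih =>
    intro h hh
    rw [mem_Nil_succ] at hh ⊢
    rintro ⟨p, j⟩
    rw [pderiv_E1]
    refine Submodule.add_mem _ (ih (hh _)) ?_
    split_ifs
    · exact hh _
    · exact Submodule.zero_mem _

lemma Nil_hom {j : ℕ} : ∀ {h : P ℓ n}, h.IsHomogeneous j → h ∈ Nil ℓ n (j + 1) := by
  induction j with
  | zero =>
    intro h hh
    rw [mem_Nil_succ]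
    intro a
    have hC := totalDegree_eq_zero_iff_eq_C.1 ((totalDegree_zero_iff_isHomogeneous _).2 hh)
    rw [hC, pderiv_C]
    exact Submodule.zero_mem _
  | succ j ih =>
    intro h hh
    rw [mem_Nil_succ]
    intro a
    exact ih (by simpa using hh.pderiv (i := a))

lemma rho_inj_aux (t : ℕ) : ∀ h : P ℓ n, h ∈ Kp ℓ n → h ∈ Nil ℓ n t → rho h = 0 → h = 0 := by
  induction t with
  | zero =>
    intro h _ hh _
    exact mem_Nil_zero.1 hh
  | succ t ih =>
    intro h hK hN h0
    have key : ∀ a : Fin ℓ × Fin n, pderiv a h = 0 := by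
      rintro ⟨k, j⟩
      have hu : pderiv (k, j) h ∈ Nil ℓ n t := mem_Nil_succ.1 hN (k, j)
      have hw : pderiv (k, j) h + ∑ i : Fin ℓ, E1 i i (pderiv (k, j) h) = 0 := by
        refine ih _ ?_ ?_ ?_
        · exact Submodule.add_mem _ (Kp_pderiv hK _)
            (Submodule.sum_mem _ fun i _ => Kp_E1 (Kp_pderiv hK _) i i)
        · exact Submodule.add_mem _ hu (Submodule.sum_mem _ fun i _ => Nil_E1 i i hu)
        · have h1 : pderiv (Sum.inl k) (pderiv (Sum.inr j) (rho h)) = 0 := by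
            rw [h0, map_zero, map_zero]
          rw [pderiv_rho_inr, map_sum] at h1
          have h2 : ∀ i : Fin ℓ, pderiv (Sum.inl k) (X (Sum.inl i) * rho (pderiv (i, j) h)) =
              (if i = k then rho (pderiv (k, j) h) else 0) + rho (E1 i i (pderiv (k, j) h)) := by
            intro i
            rw [pderiv_mul, pderiv_rho_inl, rho_E1, pderiv_rho_inl]
            have e1 : pderiv (Sum.inl k) (X (Sum.inl i) : R ℓ n) * rho (pderiv (i, j) h) =
                if i = k then rho (pderiv (k, j) h) else 0 := by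
              by_cases hi : i = k
              · subst hi
                rw [if_pos rfl, pderiv_X_self, one_mul]
              · rw [if_neg hi, pderiv_X_of_ne (by simp [hi]), zero_mul]
            have e2 : ∀ m : Fin n, pderiv (k, m) (pderiv (i, j) h) =
                pderiv (i, m) (pderiv (k, j) h) := fun m => hK k i m j
            rw [e1]
            simp only [e2]
          rw [sum_congr rfl fun i _ => h2 i, sum_add_distrib, sum_ite_eq' univ k,
            if_pos (mem_univ k), ← map_sum, ← map_add] at h1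
          exact h1
      refine one_add_euler _ ?_
      rw [Fintype.sum_prod_type]
      have h3 : ∀ i : Fin ℓ, E1 i i (pderiv (k, j) h) =
          ∑ m : Fin n, X (i, m) * pderiv (i, m) (pderiv (k, j) h) := fun i => E1_apply _ _ _
      rw [← hw, sum_congr rfl fun i _ => h3 i]
    have hC := eq_C_of_pderiv h key
    rw [hC] at h0 ⊢
    unfold rho at h0
    rw [aeval_C, algebraMap_eq, C_eq_zero] at h0
    rw [h0, C_0]

/-- Restitution is injective on `N`. -/
lemma N_le_Nil [NeZero ℓ] {d : ℕ} : N ℓ n d ≤ Nil ℓ n (d + 1) := by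
  refine Submodule.span_le.2 fun x hx => ?_
  change x ∈ Nil ℓ n (d + 1)
  induction hx with
  | base j hj g hg =>
    refine Nil_mono (s := j + 1) (by omega) (Nil_hom ?_)
    exact (V_hom hg).rename_isHomogeneous
  | step i k h _ ih => exact Nil_E1 i k ih

lemma rho_inj [NeZero ℓ] {d : ℕ} {h : P ℓ n} (hh : h ∈ N ℓ n d) (h0 : rho h = 0) : h = 0 :=
  rho_inj_aux (d + 1) h (N_le_Kp hh) (N_le_Nil hh) h0

/-! ### The tensor product inside `ℂ[y, x]` -/

/-- `p ⊗ g ↦ p(y) g(x)`. -/
noncomputable def th (A : Submodule ℂ (MvPolynomial (Fin ℓ) ℂ))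
    (W : Submodule ℂ (MvPolynomial (Fin n) ℂ)) : (A ⊗[ℂ] W) →ₗ[ℂ] R ℓ n :=
  (tensorEquivSum ℂ (Fin ℓ) (Fin n) ℂ).toLinearMap.comp (TensorProduct.map A.subtype W.subtype)

lemma tes_tmul (p : MvPolynomial (Fin ℓ) ℂ) (g : MvPolynomial (Fin n) ℂ) :
    tensorEquivSum ℂ (Fin ℓ) (Fin n) ℂ (p ⊗ₜ g) = rename Sum.inl p * rename Sum.inr g := by
  have h1 : ((tensorEquivSum ℂ (Fin ℓ) (Fin n) ℂ).toAlgHom.comp
      Algebra.TensorProduct.includeLeft : MvPolynomial (Fin ℓ) ℂ →ₐ[ℂ] R ℓ n) =
      rename Sum.inl := by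
    refine algHom_ext fun i => ?_
    rw [rename_X]
    exact tensorEquivSum_X_tmul_one i
  have h2 : ((tensorEquivSum ℂ (Fin ℓ) (Fin n) ℂ).toAlgHom.comp
      Algebra.TensorProduct.includeRight : MvPolynomial (Fin n) ℂ →ₐ[ℂ] R ℓ n) =
      rename Sum.inr := by
    refine algHom_ext fun i => ?_
    rw [rename_X]
    exact tensorEquivSum_one_tmul_X i
  have h3 : (p ⊗ₜ[ℂ] g : MvPolynomial (Fin ℓ) ℂ ⊗[ℂ] MvPolynomial (Fin n) ℂ) =
      (p ⊗ₜ[ℂ] 1) * (1 ⊗ₜ[ℂ] g) := by
    rw [Algebra.TensorProduct.tmul_mul_tmul, mul_one, one_mul]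
  rw [h3, map_mul]
  congr 1
  · exact DFunLike.congr_fun h1 p
  · exact DFunLike.congr_fun h2 g

lemma th_tmul (A : Submodule ℂ (MvPolynomial (Fin ℓ) ℂ))
    (W : Submodule ℂ (MvPolynomial (Fin n) ℂ)) (p : A) (g : W) :
    th A W (p ⊗ₜ g) = rename Sum.inl (p : MvPolynomial (Fin ℓ) ℂ) *
      rename Sum.inr (g : MvPolynomial (Fin n) ℂ) := by
  unfold th
  rw [LinearMap.comp_apply, TensorProduct.map_tmul]
  exact tes_tmul _ _

lemma th_inj (A : Submodule ℂ (MvPolynomial (Fin ℓ) ℂ))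
    (W : Submodule ℂ (MvPolynomial (Fin n) ℂ)) : Function.Injective (th A W) := by
  unfold th
  rw [LinearMap.coe_comp]
  refine Function.Injective.comp (AlgEquiv.injective _) ?_
  exact TensorProduct.map_injective_of_flat_flat _ _ A.injective_subtype W.injective_subtype

end Pool.Agent.K4H30.PM
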