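import Mathlib
import Pool.Agent.K4H30.PM.Rho
import Pool.Agent.K4H30.PM.Gamma

/-! # The structure of the polarization module of `m_{(2,1^{d-2})}` -/

namespace Pool.Agent.K4H30.PM

open Finset MvPolynomial

open scoped TensorProduct

variable {ℓ n : ℕ}

/-! ### `Sym^j` is generated by `y_0^j` -/

lemma Sym_D {j : ℕ} {p : MvPolynomial (Fin ℓ) ℂ} (hp : p ∈ Sym ℓ j) (i k : Fin ℓ) :
    X i * pderiv k p ∈ Sym ℓ j := by
  rw [mem_homogeneousSubmodule] at hp ⊢
  rcases j with _ | j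
  · have hC := totalDegree_eq_zero_iff_eq_C.1 ((totalDegree_zero_iff_isHomogeneous _).2 hp)
    rw [hC, pderiv_C, mul_zero]
    exact isHomogeneous_zero _ _ _
  · have h1 := (isHomogeneous_X ℂ i).mul (hp.pderiv (i := k))
    rwa [Nat.add_sub_cancel, add_comm] at h1

lemma homog_le [NeZero ℓ] {j : ℕ} (S : Submodule ℂ (MvPolynomial (Fin ℓ) ℂ))
    (h0 : X 0 ^ j ∈ S) (hD : ∀ (i k : Fin ℓ) (p : MvPolynomial (Fin ℓ) ℂ), p ∈ S →
      X i * pderiv k p ∈ S) : Sym ℓ j ≤ S := by
  classical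
  have key : ∀ (t : ℕ) (α : Fin ℓ →₀ ℕ), (∑ i, α i) = j → α 0 + t = j →
      monomial α (1 : ℂ) ∈ S := by
    intro t
    induction t with
    | zero =>
      intro α h1 h2
      have h3 : α = Finsupp.single 0 j := by
        ext i
        rw [Finsupp.single_apply]
        split_ifs with hi
        · rw [← hi]; omega
        · have h4 := add_sum_erase univ (fun i => α i) (mem_univ (0 : Fin ℓ))
          have h5 : ∑ i ∈ univ.erase (0 : Fin ℓ), α i = 0 := by omega
          exact (sum_eq_zero_iff.1 h5) i (mem_erase.2 ⟨Ne.symm hi, mem_univ _⟩)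
      rw [h3]
      have h6 : (X 0 ^ j : MvPolynomial (Fin ℓ) ℂ) = monomial (Finsupp.single 0 j) 1 := by
        rw [X_pow_eq_monomial]
      rwa [← h6]
    | succ t ih =>
      intro α h1 h2
      have h4 := add_sum_erase univ (fun i => α i) (mem_univ (0 : Fin ℓ))
      have h5 : ∑ i ∈ univ.erase (0 : Fin ℓ), α i ≠ 0 := by omega
      obtain ⟨i, hi, hi2⟩ := exists_ne_zero_of_sum_ne_zero h5
      have hi0 : i ≠ 0 := (mem_erase.1 hi).1
      have hle : Finsupp.single i 1 ≤ α := by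
        rw [Finsupp.single_le_iff]
        omega
      have h6 := ih ((α - Finsupp.single i 1) + Finsupp.single 0 1) (by
        have e1 : (∑ a, ((α - Finsupp.single i 1) + Finsupp.single i 1 : Fin ℓ →₀ ℕ) a) = j := by
          rw [tsub_add_cancel_of_le hle, h1]
        simp only [Finsupp.add_apply, sum_add_distrib] at e1 ⊢
        have e2 : ∀ b : Fin ℓ, ∑ a, (Finsupp.single b 1 : Fin ℓ →₀ ℕ) a = 1 := by
          intro b
          simp only [Finsupp.single_apply]
          rw [sum_ite_eq]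
          simp
        rw [e2] at e1 ⊢
        exact e1) (by
        rw [Finsupp.add_apply, Finsupp.tsub_apply, Finsupp.single_eq_same,
          Finsupp.single_eq_of_ne hi0.symm]
        omega)
      have h7 := hD i 0 _ h6
      rw [pderiv_monomial, add_tsub_cancel_right, X, monomial_mul, add_comm (Finsupp.single i 1),
        tsub_add_cancel_of_le hle] at h7
      have h8 : ((((α - Finsupp.single i 1) + Finsupp.single 0 1 : Fin ℓ →₀ ℕ) 0 : ℕ) : ℂ) ≠ 0 := by
        rw [Nat.cast_ne_zero, Finsupp.add_apply, Finsupp.single_eq_same]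
        omega
      have h9 := S.smul_mem ((((α - Finsupp.single i 1) + Finsupp.single 0 1 :
        Fin ℓ →₀ ℕ) 0 : ℕ) : ℂ)⁻¹ h7
      rw [smul_monomial] at h9
      have h10 : ((((α - Finsupp.single i 1) + Finsupp.single 0 1 : Fin ℓ →₀ ℕ) 0 : ℕ) : ℂ)⁻¹ •
          ((1 : ℂ) * (1 * ((((α - Finsupp.single i 1) + Finsupp.single 0 1 :
            Fin ℓ →₀ ℕ) 0 : ℕ) : ℂ))) = 1 := by
        rw [one_mul, one_mul, smul_eq_mul, inv_mul_cancel₀ h8]
      rwa [h10] at h9
  intro p hp
  rw [mem_homogeneousSubmodule] at hp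
  rw [← support_sum_monomial_coeff p]
  refine Submodule.sum_mem _ fun α hα => ?_
  have h1 : (∑ i, α i) = j := by
    have h2 := hp.degree_eq_sum_deg_support hα
    rw [h2]
    refine (sum_subset (subset_univ _) fun i _ hi => ?_).symm
    exact Finsupp.notMem_support_iff.1 hi
  have h3 : monomial α (coeff α p) = (coeff α p) • monomial α (1 : ℂ) := by
    rw [smul_monomial, smul_eq_mul, mul_one]
  rw [h3]
  refine S.smul_mem _ (key (j - α 0) α h1 ?_)
  have h4 := add_sum_erase univ (fun i => α i) (mem_univ (0 : Fin ℓ))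
  omega

/-! ### Restitution of a polynomial in the first row -/

lemma rho_row [NeZero ℓ] {j : ℕ} {g : MvPolynomial (Fin n) ℂ} (hg : g.IsHomogeneous j) :
    rho (row ℓ g) = X (Sum.inl 0) ^ j * rename Sum.inr g := by
  have h1 : rho (row ℓ g) = aeval (fun m : Fin n => X (Sum.inl (0 : Fin ℓ)) * X (Sum.inr m)) g := by
    unfold rho row
    rw [aeval_rename]
    rfl
  rw [h1, ← support_sum_monomial_coeff g, map_sum, map_sum, mul_sum]
  refine sum_congr rfl fun α hα => ?_
  have h2 := hg.degree_eq_sum_deg_support hα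
  have h3 : (rename Sum.inr (monomial α (coeff α g)) : R ℓ n) =
      algebraMap ℂ (R ℓ n) (coeff α g) * α.prod (fun i k => X (Sum.inr i) ^ k) := by
    rw [monomial_eq, map_mul, rename_C, algebraMap_eq]
    unfold Finsupp.prod
    rw [map_prod]
    simp only [map_pow, rename_X]
  have h4 : (α.prod fun i k => (X (Sum.inl 0) * X (Sum.inr i) : R ℓ n) ^ k) =
      X (Sum.inl 0) ^ j * α.prod (fun i k => X (Sum.inr i) ^ k) := by
    rw [h2, ← prod_pow_eq_pow_sum]
    unfold Finsupp.prod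
    rw [← prod_mul_distrib]
    exact prod_congr rfl fun i _ => mul_pow _ _ _
  rw [aeval_monomial, h3, h4]
  ring

/-! ### The isomorphism with the sum of tensor products -/

/-- `∏_j Sym^j ⊗ V_j → ℂ[y,x]`. -/
noncomputable def Theta (ℓ n d : ℕ) :
    ((j : Fin (d + 1)) → (Sym ℓ j ⊗[ℂ] V n d j)) →ₗ[ℂ] R ℓ n :=
  ∑ j : Fin (d + 1), (th (Sym ℓ j) (V n d j)).comp
    (LinearMap.proj (R := ℂ) (φ := fun j : Fin (d + 1) => (Sym ℓ j ⊗[ℂ] V n d j)) j)

lemma Theta_apply {d : ℕ} (t : (j : Fin (d + 1)) → (Sym ℓ j ⊗[ℂ] V n d j)) :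
    Theta ℓ n d t = ∑ j : Fin (d + 1), th (Sym ℓ j) (V n d j) (t j) := by
  unfold Theta
  rw [LinearMap.sum_apply]
  rfl

lemma Theta_single {d : ℕ} (j : Fin (d + 1)) (u : Sym ℓ j ⊗[ℂ] V n d j) :
    Theta ℓ n d (Pi.single j u) = th (Sym ℓ j) (V n d j) u := by
  rw [Theta_apply, sum_eq_single j]
  · rw [Pi.single_eq_same]
  · intro i _ hi
    rw [Pi.single_eq_of_ne hi, map_zero]
  · intro h
    simp at h

lemma th_hom {d : ℕ} (j : Fin (d + 1)) (u : Sym ℓ j ⊗[ℂ] V n d j) :
    th (Sym ℓ j) (V n d j) u ∈ homogeneousSubmodule (Fin ℓ ⊕ Fin n) ℂ (j + j) := by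
  induction u using TensorProduct.induction_on with
  | zero => rw [map_zero]; exact Submodule.zero_mem _
  | tmul p g =>
    rw [th_tmul, mem_homogeneousSubmodule]
    exact ((mem_homogeneousSubmodule _ _).1 p.2).rename_isHomogeneous.mul
      (V_hom g.2).rename_isHomogeneous
  | add x y hx hy => rw [map_add]; exact Submodule.add_mem _ hx hy

lemma Theta_inj (d : ℕ) : Function.Injective (Theta ℓ n d) := by
  rw [injective_iff_map_eq_zero]
  intro t h
  funext i
  apply th_inj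
  rw [Pi.zero_apply, map_zero]
  have h1 := congrArg (homogeneousComponent ((i : ℕ) + i)) h
  rw [Theta_apply, map_sum, map_zero, sum_eq_single i] at h1
  · rw [homogeneousComponent_of_mem (th_hom i (t i)), if_pos rfl] at h1
    exact h1
  · intro j _ hj
    rw [homogeneousComponent_of_mem (th_hom j (t j)), if_neg]
    intro h2
    apply hj
    apply Fin.ext
    omega
  · intro h
    simp at h

/-- `y_i ∂/∂y_k` on `ℂ[y,x]`. -/
noncomputable def Dik (i k : Fin ℓ) : R ℓ n →ₗ[ℂ] R ℓ n :=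
  (LinearMap.mulLeft ℂ (X (Sum.inl i))).comp
    (pderiv (Sum.inl k) : Derivation ℂ (R ℓ n) (R ℓ n)).toLinearMap

lemma Dik_apply (i k : Fin ℓ) (w : R ℓ n) :
    Dik i k w = X (Sum.inl i) * pderiv (Sum.inl k) w := rfl

lemma pderiv_inl_rename_inr (k : Fin ℓ) (g : MvPolynomial (Fin n) ℂ) :
    pderiv (Sum.inl k) (rename Sum.inr g : R ℓ n) = 0 := by
  induction g using MvPolynomial.induction_on with
  | C r => simp
  | add p q hp hq => rw [map_add, map_add, hp, hq, add_zero]
  | mul_X p m hp =>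
    rw [map_mul, rename_X, pderiv_mul, hp, pderiv_X_of_ne (by simp)]
    simp

lemma Dik_mul (i k : Fin ℓ) (p : MvPolynomial (Fin ℓ) ℂ) (g : MvPolynomial (Fin n) ℂ) :
    Dik i k (rename Sum.inl p * rename Sum.inr g) =
      rename Sum.inl (X i * pderiv k p) * rename Sum.inr g := by
  rw [Dik_apply, pderiv_mul, pderiv_inl_rename_inr, mul_zero, add_zero,
    pderiv_rename Sum.inl_injective, map_mul, rename_X, mul_assoc]

lemma Theta_range_D {d : ℕ} (i k : Fin ℓ) {w : R ℓ n} (hw : w ∈ LinearMap.range (Theta ℓ n d)) :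
    Dik i k w ∈ LinearMap.range (Theta ℓ n d) := by
  obtain ⟨t, rfl⟩ := hw
  rw [Theta_apply, map_sum]
  refine Submodule.sum_mem _ fun j _ => ?_
  generalize t j = u
  induction u using TensorProduct.induction_on with
  | zero => rw [map_zero, map_zero]; exact Submodule.zero_mem _
  | tmul p g =>
    rw [th_tmul, Dik_mul]
    refine ⟨Pi.single j ((⟨X i * pderiv k (p : MvPolynomial (Fin ℓ) ℂ), Sym_D p.2 i k⟩ :
      Sym ℓ j) ⊗ₜ[ℂ] g), ?_⟩
    rw [Theta_single, th_tmul]
  | add x y hx hy => rw [map_add, map_add]; exact Submodule.add_mem _ hx hy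

lemma range_le [NeZero ℓ] (d : ℕ) :
    (N ℓ n d).map (rho : P ℓ n →ₐ[ℂ] R ℓ n).toLinearMap ≤ LinearMap.range (Theta ℓ n d) := by
  rw [Submodule.map_le_iff_le_comap]
  refine Submodule.span_le.2 fun x hx => ?_
  change rho x ∈ LinearMap.range (Theta ℓ n d)
  induction hx with
  | base j hj g hg =>
    rw [rho_row (V_hom hg)]
    refine ⟨Pi.single (⟨j, by omega⟩ : Fin (d + 1)) ((⟨X 0 ^ j, isHomogeneous_X_pow 0 j⟩ :
      Sym ℓ j) ⊗ₜ[ℂ] (⟨g, hg⟩ : V n d j)), ?_⟩
    rw [Theta_single, th_tmul]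
    simp
  | step i k h _ ih =>
    rw [rho_E1]
    exact Theta_range_D i k ih

lemma le_range [NeZero ℓ] (d : ℕ) :
    LinearMap.range (Theta ℓ n d) ≤ (N ℓ n d).map (rho : P ℓ n →ₐ[ℂ] R ℓ n).toLinearMap := by
  rintro _ ⟨t, rfl⟩
  rw [Theta_apply]
  refine Submodule.sum_mem _ fun j _ => ?_
  generalize t j = u
  induction u using TensorProduct.induction_on with
  | zero => rw [map_zero]; exact Submodule.zero_mem _
  | tmul p g =>
    rw [th_tmul]
    let L : MvPolynomial (Fin ℓ) ℂ →ₗ[ℂ] R ℓ n :=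
      (LinearMap.mulRight ℂ (rename Sum.inr (g : MvPolynomial (Fin n) ℂ))).comp
        (rename Sum.inl : MvPolynomial (Fin ℓ) ℂ →ₐ[ℂ] R ℓ n).toLinearMap
    have hL : ∀ q, L q = rename Sum.inl q * rename Sum.inr (g : MvPolynomial (Fin n) ℂ) :=
      fun q => rfl
    have h1 : Sym ℓ j ≤ ((N ℓ n d).map (rho : P ℓ n →ₐ[ℂ] R ℓ n).toLinearMap).comap L := by
      refine homog_le _ ?_ ?_
      · rw [Submodule.mem_comap, hL]
        refine ⟨row ℓ g, Submodule.subset_span (Gen.base j (by omega) _ g.2), ?_⟩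
        change rho (row ℓ (g : MvPolynomial (Fin n) ℂ)) = _
        rw [rho_row (V_hom g.2), map_pow, rename_X]
      · intro i k q hq
        rw [Submodule.mem_comap, hL] at hq ⊢
        obtain ⟨h, hh, h2⟩ := hq
        rw [← Dik_mul, ← h2]
        exact ⟨E1 i k h, N_E1 i k hh, rho_E1 i k h⟩
    exact h1 p.2
  | add x y hx hy => rw [map_add]; exact Submodule.add_mem _ hx hy

lemma exists_equiv [NeZero ℓ] (d : ℕ) :
    ∃ e : ((j : Fin (d + 1)) → (Sym ℓ j ⊗[ℂ] V n d j)) ≃ₗ[ℂ] N ℓ n d,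
      ∀ t, rho (e t : P ℓ n) = Theta ℓ n d t := by
  let r : N ℓ n d →ₗ[ℂ] R ℓ n :=
    (rho : P ℓ n →ₐ[ℂ] R ℓ n).toLinearMap.comp (N ℓ n d).subtype
  have hr : Function.Injective r := by
    rw [injective_iff_map_eq_zero]
    rintro ⟨x, hx⟩ h
    exact Subtype.ext (rho_inj hx h)
  have hrange : LinearMap.range (Theta ℓ n d) = LinearMap.range r := by
    apply le_antisymm
    · intro w hw
      obtain ⟨h, hh, h2⟩ := le_range d hw
      exact ⟨⟨h, hh⟩, h2⟩
    · rintro _ ⟨⟨h, hh⟩, rfl⟩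
      exact range_le d ⟨h, hh, rfl⟩
  let e1 := LinearEquiv.ofInjective (Theta ℓ n d) (Theta_inj d)
  let e2 := LinearEquiv.ofInjective r hr
  refine ⟨e1.trans ((LinearEquiv.ofEq _ _ hrange).trans e2.symm), fun t => ?_⟩
  have h1 : ∀ y : LinearMap.range r, rho (e2.symm y : P ℓ n) = y := by
    intro y
    have := LinearEquiv.apply_symm_apply e2 y
    exact congrArg Subtype.val this
  rw [LinearEquiv.trans_apply, LinearEquiv.trans_apply, h1]
  rfl

end Pool.Agent.K4H30.PM
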