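import Mathlib
import Pool.Agent.K4H30.PM.Main

/-! # Equivariance and the final isomorphism -/

namespace Pool.Agent.K4H30.PM

open Finset MvPolynomial

open scoped TensorProduct

variable {ℓ n : ℕ}

/-! ### The group action and the restitution map -/

lemma exists_Nil (h : P ℓ n) : ∃ t, h ∈ Nil ℓ n t := by
  refine ⟨h.totalDegree + 1, ?_⟩
  rw [← sum_homogeneousComponent h]
  have h1 : ∀ i ∈ range (h.totalDegree + 1),
      homogeneousComponent i h ∈ Nil ℓ n (h.totalDegree + 1) := by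
    intro i hi
    rw [mem_range] at hi
    exact Nil_mono (s := i + 1) (by omega) (Nil_hom (homogeneousComponent_isHomogeneous i h))
  have h2 := Submodule.sum_mem _ h1
  rwa [sum_homogeneousComponent h] at h2 ⊢

lemma rho_inj' {h : P ℓ n} (hK : h ∈ Kp ℓ n) (h0 : rho h = 0) : h = 0 := by
  obtain ⟨t, ht⟩ := exists_Nil h
  exact rho_inj_aux t h hK ht h0

/-- The action of a pair `(M, σ)` on `ℂ[X]`. -/
noncomputable def act (M : Matrix.GeneralLinearGroup (Fin ℓ) ℂ) (σ : Equiv.Perm (Fin n)) :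
    P ℓ n →ₐ[ℂ] P ℓ n := (glAct M).comp (sAct σ)

lemma act_apply (M : Matrix.GeneralLinearGroup (Fin ℓ) ℂ) (σ : Equiv.Perm (Fin n)) (h : P ℓ n) :
    act M σ h = glAct M (sAct σ h) := rfl

lemma act_eq (M : Matrix.GeneralLinearGroup (Fin ℓ) ℂ) (σ : Equiv.Perm (Fin n)) :
    act M σ = aeval (fun a : Fin ℓ × Fin n =>
      ∑ k : Fin ℓ, C ((M : Matrix (Fin ℓ) (Fin ℓ) ℂ) a.1 k) * X (k, σ a.2)) := by
  refine algHom_ext fun a => ?_
  rw [act_apply, aeval_X]
  unfold sAct glAct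
  rw [rename_X, aeval_X]

lemma pderiv_act (M : Matrix.GeneralLinearGroup (Fin ℓ) ℂ) (σ : Equiv.Perm (Fin n)) (i : Fin ℓ)
    (j : Fin n) (h : P ℓ n) :
    pderiv (i, σ j) (act M σ h) =
      ∑ a : Fin ℓ, C ((M : Matrix (Fin ℓ) (Fin ℓ) ℂ) a i) * act M σ (pderiv (a, j) h) := by
  classical
  rw [act_eq, chain, Fintype.sum_prod_type]
  refine sum_congr rfl fun a _ => ?_
  rw [sum_eq_single j]
  · congr 1
    rw [map_sum, sum_eq_single i]
    · rw [pderiv_C_mul, pderiv_X_self, mul_one]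
    · intro k _ hk
      rw [pderiv_C_mul, pderiv_X_of_ne (by simp [hk]), mul_zero]
    · intro h
      simp at h
  · intro b _ hb
    rw [map_sum, sum_eq_zero, zero_mul]
    intro k _
    rw [pderiv_C_mul, pderiv_X_of_ne, mul_zero]
    intro h
    rw [Prod.mk.injEq] at h
    exact hb (σ.injective h.2)
  · intro h
    simp at h

lemma Kp_act (M : Matrix.GeneralLinearGroup (Fin ℓ) ℂ) (σ : Equiv.Perm (Fin n)) {h : P ℓ n}
    (hh : h ∈ Kp ℓ n) : act M σ h ∈ Kp ℓ n := by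
  intro i k j l
  obtain ⟨j, rfl⟩ := σ.surjective j
  obtain ⟨l, rfl⟩ := σ.surjective l
  have key : ∀ i k : Fin ℓ, pderiv (i, σ j) (pderiv (k, σ l) (act M σ h)) =
      ∑ b : Fin ℓ, ∑ a : Fin ℓ, C ((M : Matrix (Fin ℓ) (Fin ℓ) ℂ) b k) *
        (C ((M : Matrix (Fin ℓ) (Fin ℓ) ℂ) a i) * act M σ (pderiv (a, j) (pderiv (b, l) h))) := by
    intro i k
    rw [pderiv_act, map_sum]
    refine sum_congr rfl fun b _ => ?_
    rw [pderiv_C_mul, pderiv_act, mul_sum]
  rw [key i k, key k i, sum_comm]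
  refine sum_congr rfl fun a _ => sum_congr rfl fun b _ => ?_
  rw [hh a b j l]
  ring

/-- The action of a pair `(M, σ)` on `ℂ[y,x]`. -/
noncomputable def rAct (M : Matrix.GeneralLinearGroup (Fin ℓ) ℂ) (σ : Equiv.Perm (Fin n)) :
    R ℓ n →ₐ[ℂ] R ℓ n :=
  aeval (Sum.elim (fun i => ∑ k : Fin ℓ, C ((M : Matrix (Fin ℓ) (Fin ℓ) ℂ) i k) * X (Sum.inl k))
    (fun j => X (Sum.inr (σ j))))

lemma rho_act (M : Matrix.GeneralLinearGroup (Fin ℓ) ℂ) (σ : Equiv.Perm (Fin n)) (h : P ℓ n) :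
    rho (act M σ h) = rAct M σ (rho h) := by
  have h1 : (rho : P ℓ n →ₐ[ℂ] R ℓ n).comp (act M σ) = (rAct M σ).comp rho := by
    refine algHom_ext fun a => ?_
    rw [AlgHom.comp_apply, AlgHom.comp_apply, act_eq, aeval_X]
    unfold rho rAct
    rw [map_sum, aeval_X, map_mul, aeval_X, aeval_X, Sum.elim_inl, Sum.elim_inr, sum_mul]
    refine sum_congr rfl fun k _ => ?_
    rw [map_mul, aeval_X, aeval_C, algebraMap_eq]
    ring
  exact DFunLike.congr_fun h1 h

lemma rAct_inl (M : Matrix.GeneralLinearGroup (Fin ℓ) ℂ) (σ : Equiv.Perm (Fin n))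
    (p : MvPolynomial (Fin ℓ) ℂ) :
    rAct M σ (rename Sum.inl p) = rename Sum.inl (symAct M p) := by
  have h1 : (rAct M σ).comp (rename Sum.inl) =
      (rename Sum.inl : MvPolynomial (Fin ℓ) ℂ →ₐ[ℂ] R ℓ n).comp (symAct M) := by
    refine algHom_ext fun i => ?_
    rw [AlgHom.comp_apply, AlgHom.comp_apply, rename_X]
    unfold rAct symAct
    rw [aeval_X, aeval_X, Sum.elim_inl, map_sum]
    refine sum_congr rfl fun k _ => ?_
    rw [map_mul, rename_C, rename_X]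
  exact DFunLike.congr_fun h1 p

lemma rAct_inr (M : Matrix.GeneralLinearGroup (Fin ℓ) ℂ) (σ : Equiv.Perm (Fin n))
    (g : MvPolynomial (Fin n) ℂ) :
    rAct M σ (rename Sum.inr g) = rename Sum.inr (rename σ g) := by
  have h1 : (rAct M σ).comp (rename Sum.inr) =
      (rename Sum.inr : MvPolynomial (Fin n) ℂ →ₐ[ℂ] R ℓ n).comp (rename σ) := by
    refine algHom_ext fun i => ?_
    rw [AlgHom.comp_apply, AlgHom.comp_apply, rename_X, rename_X, rename_X]
    unfold rAct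
    rw [aeval_X, Sum.elim_inr]
  exact DFunLike.congr_fun h1 g

/-- The action of `σ` on `V_j`. -/
noncomputable def vAct (d : ℕ) (σ : Equiv.Perm (Fin n)) (j : ℕ) : V n d j →ₗ[ℂ] V n d j :=
  (rename σ : MvPolynomial (Fin n) ℂ →ₐ[ℂ] MvPolynomial (Fin n) ℂ).toLinearMap.restrict
    fun _ hg => V_rename σ hg

lemma th_act {d j : ℕ} (M : Matrix.GeneralLinearGroup (Fin ℓ) ℂ) (σ : Equiv.Perm (Fin n))
    (u : Sym ℓ j ⊗[ℂ] V n d j) :
    th (Sym ℓ j) (V n d j) (TensorProduct.map (symRep M j) (vAct d σ j) u) =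
      rAct M σ (th (Sym ℓ j) (V n d j) u) := by
  induction u using TensorProduct.induction_on with
  | zero => simp
  | tmul p g =>
    rw [TensorProduct.map_tmul, th_tmul, th_tmul, map_mul, rAct_inl, rAct_inr]
    rfl
  | add x y hx hy => rw [map_add, map_add, map_add, map_add, hx, hy]

/-! ### The isomorphism for one degree -/

/-- The right-hand side in degree `j`. -/
abbrev Tj (ℓ n d j : ℕ) : Type :=
  (x : Σ i : Fin (d / 2 + 1), Fin (mult d i j)) → (Sym ℓ j ⊗[ℂ] Specht n x.1)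

/-- The group action on it. -/
noncomputable def tAct (d : ℕ) (M : Matrix.GeneralLinearGroup (Fin ℓ) ℂ) (σ : Equiv.Perm (Fin n))
    (j : ℕ) (t : Tj ℓ n d j) : Tj ℓ n d j :=
  fun x => TensorProduct.map (symRep M j) (spRep σ x.1) (t x)

lemma exists_Tj {d j : ℕ} (hd : 3 ≤ d) (hn : d ≤ n) (hj : j ≤ d) :
    ∃ G : Tj ℓ n d j ≃ₗ[ℂ] (Sym ℓ j ⊗[ℂ] V n d j),
      ∀ (M : Matrix.GeneralLinearGroup (Fin ℓ) ℂ) (σ : Equiv.Perm (Fin n)) (t : Tj ℓ n d j),
        G (tAct d M σ j t) = TensorProduct.map (symRep M j) (vAct d σ j) (G t) := by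
  obtain ⟨Γ, hΓ⟩ := gamma (n := n) hd hn hj
  let Pr := TensorProduct.piRight ℂ ℂ (Sym ℓ j)
    (fun x : (Σ i : Fin (d / 2 + 1), Fin (mult d i j)) => Specht n x.1)
  refine ⟨Pr.symm.trans (LinearEquiv.lTensor (Sym ℓ j) Γ), fun M σ t => ?_⟩
  obtain ⟨u, rfl⟩ := Pr.surjective t
  let S : ((x : Σ i : Fin (d / 2 + 1), Fin (mult d i j)) → Specht n x.1) →ₗ[ℂ]
      ((x : Σ i : Fin (d / 2 + 1), Fin (mult d i j)) → Specht n x.1) :=
    LinearMap.pi (fun x => (spRep σ x.1).comp (LinearMap.proj x))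
  have h1 : tAct d M σ j (Pr u) = Pr (TensorProduct.map (symRep M j) S u) := by
    induction u using TensorProduct.induction_on with
    | zero =>
      rw [map_zero, map_zero, map_zero]
      funext x
      exact map_zero _
    | tmul p φ =>
      rw [TensorProduct.map_tmul]
      funext x
      exact TensorProduct.map_tmul _ _ _ _
    | add x y hx hy =>
      rw [map_add, map_add, map_add, ← hx, ← hy]
      funext z
      exact map_add _ _ _
  have h2 : ∀ u, LinearEquiv.lTensor (Sym ℓ j) Γ (TensorProduct.map (symRep M j) S u) =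
      TensorProduct.map (symRep M j) (vAct d σ j) (LinearEquiv.lTensor (Sym ℓ j) Γ u) := by
    intro u
    induction u using TensorProduct.induction_on with
    | zero => simp only [map_zero]
    | tmul p φ =>
      rw [TensorProduct.map_tmul, LinearEquiv.lTensor_tmul, LinearEquiv.lTensor_tmul,
        TensorProduct.map_tmul]
      congr 1
      apply Subtype.ext
      exact hΓ σ φ (S φ) (fun x => rfl)
    | add x y hx hy => rw [map_add, map_add, map_add, map_add, hx, hy]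
  rw [h1, LinearEquiv.trans_apply, LinearEquiv.trans_apply, LinearEquiv.symm_apply_apply,
    LinearEquiv.symm_apply_apply]
  exact h2 u

/-- The main theorem. -/
theorem main (d n ℓ : ℕ) [NeZero ℓ] (hd : 3 ≤ d) (hn : d ≤ n) :
    ∃ φ : ((j : Fin (d + 1)) → (x : Σ i : Fin (d / 2 + 1), Fin (mult d i j)) →
        (Sym ℓ j ⊗[ℂ] Specht n x.1)) ≃ₗ[ℂ] polMod (row ℓ (m21 n d)),
      ∀ (M : Matrix.GeneralLinearGroup (Fin ℓ) ℂ) (σ : Equiv.Perm (Fin n))
        (t : (j : Fin (d + 1)) → (x : Σ i : Fin (d / 2 + 1), Fin (mult d i j)) →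
          (Sym ℓ j ⊗[ℂ] Specht n x.1)),
        (φ (fun j x => TensorProduct.map (symRep M j) (spRep σ x.1) (t j x)) : P ℓ n) =
          glAct M (sAct σ (φ t : P ℓ n)) := by
  have h0 : ∀ j : Fin (d + 1), ∃ G : Tj ℓ n d j ≃ₗ[ℂ] (Sym ℓ j ⊗[ℂ] V n d j),
      ∀ (M : Matrix.GeneralLinearGroup (Fin ℓ) ℂ) (σ : Equiv.Perm (Fin n)) (t : Tj ℓ n d j),
        G (tAct d M σ j t) = TensorProduct.map (symRep M j) (vAct d σ j) (G t) :=
    fun j => exists_Tj hd hn (by omega)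
  choose G hG using h0
  obtain ⟨e, he⟩ := exists_equiv (ℓ := ℓ) (n := n) d
  let A : ((j : Fin (d + 1)) → Tj ℓ n d j) ≃ₗ[ℂ]
      ((j : Fin (d + 1)) → (Sym ℓ j ⊗[ℂ] V n d j)) := LinearEquiv.piCongrRight G
  have hA : ∀ t j, A t j = G j (t j) := fun t j => rfl
  let B : N ℓ n d ≃ₗ[ℂ] polMod (row ℓ (m21 n d)) := LinearEquiv.ofEq _ _ (polMod_eq hd).symm
  refine ⟨(A.trans e).trans B, fun M σ t => ?_⟩
  have h1 : ∀ t, (((A.trans e).trans B) t : P ℓ n) = (e (A t) : P ℓ n) := fun t => rfl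
  rw [h1, h1, ← act_apply]
  have h2 : rho (e (A (fun j => tAct d M σ j (t j))) : P ℓ n) =
      rho (act M σ (e (A t) : P ℓ n)) := by
    rw [he, rho_act, he, Theta_apply, Theta_apply, map_sum]
    refine sum_congr rfl fun j _ => ?_
    rw [hA, hG, th_act, hA]
  have h3 : (e (A (fun j => tAct d M σ j (t j))) : P ℓ n) - act M σ (e (A t) : P ℓ n) = 0 := by
    refine rho_inj' (Submodule.sub_mem _ (N_le_Kp (e _).2) (Kp_act M σ (N_le_Kp (e _).2))) ?_
    rw [map_sub, h2, sub_self]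
  exact sub_eq_zero.1 h3

/-- The main theorem, as an injective equivariant linear map with image `M_f`. -/
theorem main' (d n ℓ : ℕ) [NeZero ℓ] (hd : 3 ≤ d) (hn : d ≤ n) :
    ∃ φ : Rhs ℓ n d →ₗ[ℂ] P ℓ n, Function.Injective φ ∧
      LinearMap.range φ = polMod (row ℓ (m21 n d)) ∧
      ∀ (M : Matrix.GeneralLinearGroup (Fin ℓ) ℂ) (σ : Equiv.Perm (Fin n)) (t : Rhs ℓ n d),
        φ (rhsAct M σ t) = glAct M (sAct σ (φ t)) := by
  obtain ⟨φ, h⟩ := main d n ℓ hd hn
  refine ⟨(Submodule.subtype _).comp φ.toLinearMap, ?_, ?_, fun M σ t => h M σ t⟩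
  · exact (Submodule.injective_subtype _).comp φ.injective
  · rw [LinearMap.range_comp, LinearEquiv.range, Submodule.map_top, Submodule.range_subtype]

end Pool.Agent.K4H30.PM
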